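import Pool.Agent.W_7742x_h74.QDef
import Mathlib.NumberTheory.Height.NumberField

/-! # Definitions for the statement: pseudo-characters attached to polynomials, heights -/

set_option autoImplicit false

noncomputable section

namespace Pool.Agent.PsC74

open NumberField Polynomial Filter Topology

/-- The absolute Galois group of `k`. -/
abbrev AbsGal (k : Type) [Field k] : Type := AlgebraicClosure k ≃ₐ[k] AlgebraicClosure k

/-- The ring of the algebraic integers in the algebraic closure of `k`. -/
abbrev IntClosure (k : Type) [Field k] : Type := integralClosure ℤ (AlgebraicClosure k)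

/-- The absolute Galois group of `ℚ`. -/
abbrev GQ : Type := AbsGal ℚ

/-- The ring of all algebraic integers. -/
abbrev Zbar : Type := IntClosure ℚ

/-- `F p` is a Frobenius element at a prime ideal `𝔓` of the ring of all algebraic integers which
contains `p`, for all primes `p`: `F p x ≡ x ^ p` modulo `𝔓` for all algebraic integers `x`. -/
def IsFrobeniusChoice (F : Nat.Primes → GQ) : Prop :=
  ∀ p : Nat.Primes, ∃ 𝔓 : Ideal Zbar, 𝔓.IsPrime ∧ ((p : ℕ) : Zbar) ∈ 𝔓 ∧
    ∀ x : Zbar, ∃ y ∈ 𝔓, F p (x : AlgebraicClosure ℚ) = (x : AlgebraicClosure ℚ) ^ (p : ℕ) + y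

/-- The set `X` of primes has Dirichlet density zero. -/
def DensityZero (X : Set Nat.Primes) : Prop :=
  Tendsto (fun s : ℝ => (∑' p : Nat.Primes, X.indicator
    (fun q : Nat.Primes => ((q : ℕ) : ℝ) ^ (-s)) p) / Real.log (1 / (s - 1))) (𝓝[>] 1) (𝓝 0)

/-- The (upper) mean of `a p` over the primes is at most `M`: the series of the `a p * p ^ (-s)` converges
for `s > 1` near `1`, and the limit superior of its quotient by `log (1 / (s - 1))` for `s → 1` is at
most `M`. -/
def MeanLE (M : ℝ) (a : Nat.Primes → ℝ) : Prop :=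
  ∀ ε : ℝ, 0 < ε → ∀ᶠ s : ℝ in 𝓝[>] 1,
    Summable (fun p : Nat.Primes => a p * ((p : ℕ) : ℝ) ^ (-s)) ∧
    ∑' p : Nat.Primes, a p * ((p : ℕ) : ℝ) ^ (-s) ≤ (M + ε) * Real.log (1 / (s - 1))

/-- The representation `R` over the number field `E` is absolutely irreducible: for every embedding of
`E` in `ℂ` there are no invariant subspaces of `ℂ ^ n` besides the trivial ones. -/
def IsAbsIrreducible {E : Type} [Field E] {n : ℕ} (R : GQ →* GL (Fin n) E) : Prop :=
  ∀ (τ : E →+* ℂ) (W : Submodule ℂ (Fin n → ℂ)),
    (∀ g, ∀ w ∈ W, ((R g).val.map τ).mulVec w ∈ W) → W = ⊥ ∨ W = ⊤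

/-- There is an absolutely irreducible representation `R` with open kernel over a number field `E` in
`ℂ` such that for all primes `p` outside a set of density zero `tr R (F p) = z (F p)` and
`tr R g = z g` for all `g ∈ U p`, and such that `tr R g = z g` for all `g ∈ V`. -/
def HasMotive (n : ℕ) (F : Nat.Primes → GQ) (U : Nat.Primes → Set GQ) (V : Set GQ) (z : GQ → ℂ) :
    Prop :=
  ∃ (E : Type) (_ : Field E) (_ : NumberField E) (i : E →+* ℂ) (R : GQ →* GL (Fin n) E),
    IsAbsIrreducible R ∧ IsOpen (R.ker : Set GQ) ∧
    DensityZero {p : Nat.Primes | ¬ (i (R (F p)).val.trace = z (F p) ∧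
      ∀ g ∈ U p, i (R g).val.trace = z g)} ∧
    ∀ g ∈ V, i (R g).val.trace = z g

/-- `polarized t k (x 0, ..., x (k - 1))` is the sum over the permutations of `0, ..., k - 1` of the sign
times the product over the cycles of the values of the class function `t` at the products of the `x i` over
the cycle: for `k = 0` it is `1`, and
`polarized t (k + 1) (x 0, ..., x k) = t (x 0) * polarized t k (x 1, ..., x k) -
∑ i, polarized t k (x 1, ..., x i * x 0, ..., x k)`. -/
def polarized {G A : Type} [Mul G] [CommRing A] (t : G → A) : (k : ℕ) → (Fin k → G) → A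
  | 0, _ => 1
  | k + 1, x => t (x 0) * polarized t k (Fin.tail x) -
      ∑ i : Fin k, polarized t k (Function.update (Fin.tail x) i (x i.succ * x 0))

/-- The function `t` on the group `G` with values in the commutative ring `A` is a pseudo-character of
dimension `n` (Taylor): a class function with `t 1 = n` which satisfies the fundamental identity of degree
`n + 1` of the traces of `n × n` matrices. -/
structure IsPseudocharacter {G A : Type} [Group G] [CommRing A] (n : ℕ) (t : G → A) : Prop where
  one : t 1 = n
  comm : ∀ x y, t (x * y) = t (y * x)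
  polarized : ∀ x : Fin (n + 1) → G, polarized t (n + 1) x = 0

/-- The (absolute, multiplicative) height of the element `x` of the number field `K` is at most `T`. -/
def HeightLE {K : Type} [Field K] [NumberField K] (T : ℝ) (x : K) : Prop :=
  Height.mulHeight₁ x ≤ T ^ Module.finrank ℚ K

/-- The (absolute, multiplicative) height of the element `x` of the number field `K` is at least `T`. -/
def HeightGE {K : Type} [Field K] [NumberField K] (T : ℝ) (x : K) : Prop :=
  T ^ Module.finrank ℚ K ≤ Height.mulHeight₁ x

/-- The number field `K` is embedded in `ℂ` by `s`, the ring `O` is mapped to `K` by `j`, and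
`ι : O → A` is a homomorphism to a commutative ring.  The complex number `x` is an element of `O` of
height at most `T`, and its image in `A` is `a`. -/
def IsLiftOf {K O A : Type} [Field K] [NumberField K] [CommRing O] [CommRing A] (j : O →+* K)
    (s : K →+* ℂ) (T : ℝ) (ι : O →+* A) (x : ℂ) (a : A) : Prop :=
  ∃ c : O, s (j c) = x ∧ HeightLE T (j c) ∧ a = ι c

/-- The function `t` on `G_ℚ` with values in `A` is a locally constant pseudo-character of dimension `n`;
for all primes `p` outside a set of upper density at most `ε` and all `g ∈ U p`, and for `g = F p`, the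
number `z g` is an element of `O` of height at most `T`, and its image in `A` is `t g`; and this holds for
all `g ∈ V`. -/
def NearlyAttached (n : ℕ) (F : Nat.Primes → GQ) {K O A : Type} [Field K] [NumberField K]
    [CommRing O] [CommRing A] (U : Nat.Primes → Set GQ) (V : Set GQ) (z : GQ → ℂ) (j : O →+* K)
    (s : K →+* ℂ) (T ε : ℝ) (ι : O →+* A) (t : GQ → A) : Prop :=
  IsLocallyConstant t ∧ IsPseudocharacter n t ∧
    MeanLE ε ({p : Nat.Primes | ¬ (IsLiftOf j s T ι (z (F p)) (t (F p)) ∧
      ∀ g ∈ U p, IsLiftOf j s T ι (z g) (t g))}.indicator 1) ∧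
    ∀ g ∈ V, IsLiftOf j s T ι (z g) (t g)

/-- For all `ε > 0` there are an integer `T ≥ 2 n`, a number field `K` in `ℂ`, a subring `O` of `K` (its
inclusion is `j`), a homomorphism `ι` from `O` to a commutative ring `A` such that all nonzero elements of
its kernel have height at least `T ^ (7 (n + 1)!)`, and a locally constant pseudo-character `t` of `G_ℚ` of
dimension `n` with values in `A` with the property `NearlyAttached`. -/
def AttachedNear (n : ℕ) (F : Nat.Primes → GQ) (U : Nat.Primes → Set GQ) (V : Set GQ)
    (z : GQ → ℂ) : Prop :=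
  ∀ ε : ℝ, 0 < ε → ∃ T : ℕ, 2 * n ≤ T ∧
    ∃ (K O A : Type) (_ : Field K) (_ : NumberField K) (_ : CommRing O) (_ : CommRing A)
      (s : K →+* ℂ) (j : O →+* K) (ι : O →+* A) (t : GQ → A),
      Function.Injective j ∧
      (∀ x : O, x ≠ 0 → ι x = 0 → HeightGE ((T : ℝ) ^ (7 * (n + 1).factorial)) (j x)) ∧
      NearlyAttached n F U V z j s T ε ι t

/-- The complex number `x` is an algebraic integer `c` of the number field `K`, embedded in `ℂ` by `s`, all
conjugates of `c` have absolute value at most `(2 n) ^ (n ^ 2)`, and its image in `A` is `a`. -/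
def IsSmallLiftOf (n : ℕ) {K A : Type} [Field K] [NumberField K] [CommRing A] (s : K →+* ℂ)
    (ι : 𝓞 K →+* A) (x : ℂ) (a : A) : Prop :=
  ∃ c : 𝓞 K, s (c : K) = x ∧ (∀ σ : K →+* ℂ, ‖σ (c : K)‖ ≤ (2 * n) ^ n ^ 2) ∧ a = ι c

/-- There are a number field `K` in `ℂ`, of degree `d`, algebraic integers `b p` of `K`, a homomorphism
`ι` from `𝓞 K` to a commutative ring `A` whose kernel has norm at least `(2 n) ^ (3 (n ^ 2 + 1) d)`, and
a locally constant pseudo-character `t` of `G_ℚ` of dimension `n` with values in `A`, such that for all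
primes `p` outside a set of density zero `b p` is `z (F p)` in `ℂ` and `t (F p)` in `A`, such
that the sum of the squares of the absolute values of the conjugates of `b p` has mean at most `d`, and
such that for the `g ∈ U p`, `p` outside a set of density zero, and for all `g ∈ V` the number `z g` is an
element of `𝓞 K` whose conjugates have absolute value at most `(2 n) ^ (n ^ 2)`, and its image in `A` is
`t g`. -/
def AttachedOne (n : ℕ) (F : Nat.Primes → GQ) (U : Nat.Primes → Set GQ) (V : Set GQ)
    (z : GQ → ℂ) : Prop :=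
  ∃ (K : Type) (_ : Field K) (_ : NumberField K) (s : K →+* ℂ) (b : Nat.Primes → 𝓞 K)
    (A : Type) (_ : CommRing A) (ι : 𝓞 K →+* A) (t : GQ → A),
    (2 * n) ^ (3 * (n ^ 2 + 1) * Module.finrank ℚ K) ≤ Ideal.absNorm (RingHom.ker ι) ∧
    IsLocallyConstant t ∧ IsPseudocharacter n t ∧
    DensityZero {p : Nat.Primes | ¬ (s (b p : K) = z (F p) ∧ t (F p) = ι (b p) ∧
      ∀ g ∈ U p, IsSmallLiftOf n s ι (z g) (t g))} ∧
    MeanLE (Module.finrank ℚ K) (fun p => ∑ σ : K →+* ℂ, ‖σ (b p : K)‖ ^ 2) ∧
    ∀ g ∈ V, IsSmallLiftOf n s ι (z g) (t g)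

end Pool.Agent.PsC74
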