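import Pool.Agent.W_7742h_h74.GPrm
import Pool.Agent.W_7742z_h74.PsB

/-! # The antisymmetrizer -/

set_option autoImplicit false

noncomputable section

namespace Pool.Agent.CycH74

open Equiv Equiv.Perm
open Pool.Agent.OneI74 (pol pol_succ pol_zero)

variable {α G A : Type}

/-- The permutation `τ` of `Fin k` acting on the image of `d`. -/
abbrev via {k : ℕ} (d : Fin k ↪ α) (τ : Perm (Fin k)) : Perm α := viaEmbeddingHom d τ

theorem via_apply {k : ℕ} (d : Fin k ↪ α) (τ : Perm (Fin k)) (x : Fin k) :
    via d τ (d x) = d (τ x) := viaEmbedding_apply τ d x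

theorem via_of_not {k : ℕ} (d : Fin k ↪ α) (τ : Perm (Fin k)) {x : α} (hx : ∀ y, d y ≠ x) :
    via d τ x = x :=
  viaEmbedding_apply_of_notMem τ d x (by
    rintro ⟨y, hy⟩
    exact hx y hy)

theorem via_symm {k : ℕ} (d : Fin k ↪ α) (τ : Perm (Fin k)) (x : Fin k) :
    (via d τ).symm (d x) = d (τ.symm x) := by
  rw [Equiv.symm_apply_eq, via_apply, Equiv.apply_symm_apply]

theorem via_symm_of_not {k : ℕ} (d : Fin k ↪ α) (τ : Perm (Fin k)) {x : α} (hx : ∀ y, d y ≠ x) :
    (via d τ).symm x = x := by
  rw [Equiv.symm_apply_eq, via_of_not d τ hx]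

/-- The restriction of an embedding to the positive elements. -/
def tl {k : ℕ} (d : Fin (k + 1) ↪ α) : Fin k ↪ α := (Fin.succEmb k).trans d

theorem tl_apply {k : ℕ} (d : Fin (k + 1) ↪ α) (x : Fin k) : tl d x = d x.succ := rfl

theorem via_tl {k : ℕ} (d : Fin (k + 1) ↪ α) (e : Perm (Fin k)) (ρ : Perm α)
    (h0 : ρ (d 0) = d 0) (h1 : ∀ x : Fin k, ρ (d x.succ) = d (e x).succ)
    (h2 : ∀ x, (∀ y, d y ≠ x) → ρ x = x) : ρ = via (tl d) e := by
  ext x
  by_cases hx : ∃ y, d y = x
  · obtain ⟨y, rfl⟩ := hx
    refine Fin.cases ?_ (fun z => ?_) y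
    · rw [h0, via_of_not]
      intro y hy
      rw [tl_apply] at hy
      exact Fin.succ_ne_zero _ (d.injective hy)
    · rw [h1]
      exact (via_apply (tl d) e z).symm
  · rw [not_exists] at hx
    rw [h2 x hx, via_of_not]
    intro y hy
    exact hx _ hy

variable [DecidableEq α] [Semigroup G] [CommRing A]

theorem alt_full (t : G → A) {k : ℕ} (d : Fin k ↪ α) (g : α → G) :
    ∑ τ : Perm (Fin k), ((sign τ : ℤ) : A) * cyc t (List.ofFn d) (via d τ) g =
      pol t k (fun i => g (d i)) := by
  induction k generalizing g with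
  | zero =>
    rw [pol_zero, Fintype.sum_unique, List.ofFn_zero, cyc]
    simp
  | succ k ih =>
    have hd : List.ofFn d = d 0 :: List.ofFn (tl d) := by
      rw [List.ofFn_succ]
      rfl
    -- one permutation
    have key : ∀ (p : Fin (k + 1)) (e : Perm (Fin k)),
        cyc t (List.ofFn d) (via d (decomposeFin.symm (p, e⁻¹))⁻¹) g =
          Fin.cases (motive := fun _ => A)
            (t (g (d 0)) * cyc t (List.ofFn (tl d)) (via (tl d) e) g)
            (fun i => cyc t (List.ofFn (tl d)) (via (tl d) e)
              (Function.update g (d i.succ) (g (d i.succ) * g (d 0)))) p := by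
      intro p e
      obtain ⟨u, hu⟩ : ∃ u : Perm (Fin (k + 1)), u = decomposeFin.symm (p, e⁻¹) := ⟨_, rfl⟩
      have hu0 : u 0 = p := by rw [hu, decomposeFin_symm_apply_zero]
      have hus : ∀ x : Fin k, u (e x).succ = swap 0 p x.succ := by
        intro x
        rw [hu, decomposeFin_symm_apply_succ]
        simp
      rw [← hu]
      have hτp : u⁻¹ p = 0 := by rw [← hu0]; simp
      rcases Fin.eq_zero_or_eq_succ p with rfl | ⟨i, rfl⟩
      · rw [Fin.cases_zero, hd]
        have hs : ∀ x : Fin k, u⁻¹ x.succ = (e x).succ := by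
          intro x
          have h1 := hus x
          rw [swap_self] at h1
          have h2 : u (e x).succ = x.succ := h1
          rw [← h2]
          simp
        have h1 : via d u⁻¹ (d 0) = d 0 := by rw [via_apply, hτp]
        rw [cyc_fix t _ g h1, via_tl d e (via d u⁻¹) h1 (fun x => by rw [via_apply, hs])
          (fun x hx => via_of_not d _ hx)]
      · rw [Fin.cases_succ, hd]
        have hτ0 : u⁻¹ 0 ≠ 0 := by
          intro h
          have h1 : u⁻¹ i.succ = u⁻¹ 0 := by rw [hτp, h]
          exact Fin.succ_ne_zero i ((u⁻¹).injective h1)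
        have h1 : via d u⁻¹ (d 0) ≠ d 0 := by
          rw [via_apply]
          intro h
          exact hτ0 (d.injective h)
        have h2 : (via d u⁻¹).symm (d 0) = d i.succ := by
          rw [via_symm]
          congr 1
        rw [cyc_move t _ g h1, h2, via_apply]
        congr 1
        refine via_tl d e _ ?_ (fun x => ?_) fun x hx => ?_
        · rw [mul_apply, via_apply, swap_apply_right]
        · rw [mul_apply, via_apply]
          by_cases hx : x.succ = i.succ
          · have h3 : u (e x).succ = 0 := by rw [hus, hx, swap_apply_right]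
            have h4 : u⁻¹ 0 = (e x).succ := by rw [← h3]; simp
            rw [hx, hτp, swap_apply_left, h4]
          · have h3 : u (e x).succ = x.succ := by
              rw [hus, swap_apply_of_ne_of_ne (Fin.succ_ne_zero x) hx]
            have h4 : u⁻¹ x.succ = (e x).succ := by rw [← h3]; simp
            rw [h4, swap_apply_of_ne_of_ne]
            · intro h
              exact Fin.succ_ne_zero _ (d.injective h)
            · intro h
              have h5 := d.injective h
              rw [← h4] at h5
              exact Fin.succ_ne_zero _ ((u⁻¹).injective h5)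
        · rw [mul_apply, via_of_not d _ hx,
            swap_apply_of_ne_of_ne (fun h => hx 0 h.symm) (fun h => hx _ h.symm)]
    obtain ⟨ψ, hψ⟩ : ∃ ψ : Fin (k + 1) × Perm (Fin k) ≃ Perm (Fin (k + 1)),
        ∀ p e, ψ (p, e) = (decomposeFin.symm (p, e⁻¹))⁻¹ :=
      ⟨((Equiv.refl _).prodCongr (Equiv.inv _)).trans (decomposeFin.symm.trans (Equiv.inv _)),
        fun p e => rfl⟩
    rw [← ψ.sum_comp, Fintype.sum_prod_type]
    simp only [hψ, key, sign_inv, decomposeFin.symm_sign]
    rw [Fin.sum_univ_succ, pol_succ]
    simp only [Fin.cases_zero, Fin.cases_succ, if_true, one_mul, Fin.succ_ne_zero, if_false]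
    have h0 : ∑ e : Perm (Fin k), ((sign e : ℤ) : A) *
        (t (g (d 0)) * cyc t (List.ofFn (tl d)) (via (tl d) e) g) =
        t (g (d 0)) * pol t k (Fin.tail fun i => g (d i)) := by
      have h1 := ih (tl d) g
      have h2 : (fun i => g (tl d i)) = Fin.tail fun i => g (d i) := rfl
      rw [h2] at h1
      rw [← h1, Finset.mul_sum]
      exact Finset.sum_congr rfl fun e _ => by ring
    have h3 : ∀ i : Fin k, ∑ e : Perm (Fin k), (((-1 * sign e : ℤˣ) : ℤ) : A) *
        cyc t (List.ofFn (tl d)) (via (tl d) e)
          (Function.update g (d i.succ) (g (d i.succ) * g (d 0))) =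
        -pol t k (Function.update (Fin.tail fun i => g (d i)) i (g (d i.succ) * g (d 0))) := by
      intro i
      have h1 := ih (tl d) (Function.update g (d i.succ) (g (d i.succ) * g (d 0)))
      have h2 : (fun j => Function.update g (d i.succ) (g (d i.succ) * g (d 0)) (tl d j)) =
          Function.update (Fin.tail fun i => g (d i)) i (g (d i.succ) * g (d 0)) :=
        Function.update_comp_eq_of_injective g (tl d).injective i _
      rw [h2] at h1
      rw [← h1, ← Finset.sum_neg_distrib]
      refine Finset.sum_congr rfl fun e _ => ?_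
      push_cast
      ring
    rw [h0, Finset.sum_congr rfl fun i _ => h3 i, Finset.sum_neg_distrib, sub_eq_add_neg]

end Pool.Agent.CycH74
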