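import Pool.Agent.W_7742h_h74.GAlt

/-! # The antisymmetrizer on a subset of the letters -/

set_option autoImplicit false

noncomputable section

namespace Pool.Agent.CycH74

open Equiv Equiv.Perm
open Pool.Agent.OneI74 (pol pol_succ pol_zero)

variable {α G A : Type} [DecidableEq α] [Semigroup G] [CommRing A]

omit [DecidableEq α] in
/-- A permutation which fixes everything outside the image of `d` comes from a permutation of `Fin k`. -/
theorem exists_via {k : ℕ} (d : Fin k ↪ α) {σ : Perm α} (hσ : Fixes (List.ofFn d) σ) :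
    ∃ ρ : Perm (Fin k), σ = via d ρ := by
  have hmem : ∀ x, x ∉ List.ofFn d ↔ ∀ y, d y ≠ x := by
    intro x
    rw [List.mem_ofFn, not_exists]
  have h1 : ∀ x : Fin k, ∃ y, d y = σ (d x) := by
    intro x
    by_contra hcon
    rw [not_exists] at hcon
    have h2 := hσ (σ (d x)) ((hmem _).2 hcon)
    exact hcon x (σ.injective h2).symm
  choose f hf using h1
  have hinj : Function.Injective f := by
    intro x y hxy
    have h2 := hf x
    rw [hxy, hf y] at h2
    exact (d.injective (σ.injective h2)).symm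
  refine ⟨Equiv.ofBijective f (Finite.injective_iff_bijective.1 hinj), ?_⟩
  ext x
  by_cases hx : ∃ y, d y = x
  · obtain ⟨y, rfl⟩ := hx
    rw [via_apply]
    exact (hf y).symm
  · rw [not_exists] at hx
    rw [hσ x ((hmem x).2 hx), via_of_not d _ hx]

theorem alt_zero (t : G → A) {k : ℕ} (hk : ∀ y : Fin k → G, pol t k y = 0) (d : Fin k ↪ α)
    (l : List α) {σ : Perm α} (hσ : Fixes (l ++ List.ofFn d) σ) (hn : (l ++ List.ofFn d).Nodup)
    (g : α → G) :
    ∑ τ : Perm (Fin k), ((sign τ : ℤ) : A) * cyc t (l ++ List.ofFn d) (via d τ * σ) g = 0 := by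
  induction l generalizing σ g with
  | nil =>
    rw [List.nil_append] at hσ ⊢
    obtain ⟨ρ, rfl⟩ := exists_via d hσ
    have h1 := alt_full t d g
    rw [hk] at h1
    have h2 : ∀ τ : Perm (Fin k), via d τ * via d ρ = via d (τ * ρ) := fun τ =>
      (map_mul (viaEmbeddingHom d) τ ρ).symm
    simp only [h2]
    have h3 : ∑ τ : Perm (Fin k), ((sign τ : ℤ) : A) * cyc t (List.ofFn d) (via d (τ * ρ)) g =
        ∑ τ : Perm (Fin k), ((sign ρ : ℤ) : A) *
          (((sign (τ * ρ) : ℤ) : A) * cyc t (List.ofFn d) (via d (τ * ρ)) g) := by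
      refine Finset.sum_congr rfl fun τ _ => ?_
      rw [← mul_assoc]
      congr 1
      rw [Perm.sign_mul]
      have h4 : ((sign ρ : ℤ) : A) * ((sign ρ : ℤ) : A) = 1 := by
        rw [← Int.cast_mul, ← Units.val_mul, Int.units_mul_self]
        simp
      push_cast
      linear_combination (-((sign τ : ℤ) : A)) * h4
    rw [h3, ← Finset.mul_sum]
    have h5 := Equiv.sum_comp (Equiv.mulRight ρ) (fun τ : Perm (Fin k) =>
      ((sign τ : ℤ) : A) * cyc t (List.ofFn d) (via d τ) g)
    simp only [Equiv.coe_mulRight] at h5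
    rw [h5, h1, mul_zero]
  | cons a l ih =>
    rw [List.cons_append] at hσ hn ⊢
    obtain ⟨hn1, hn2⟩ := List.nodup_cons.1 hn
    have hda : ∀ y, d y ≠ a := by
      intro y hy
      apply hn1
      rw [← hy]
      simp
    by_cases ha : σ a = a
    · have h1 : ∀ τ : Perm (Fin k), (via d τ * σ) a = a := fun τ => by
        rw [mul_apply, ha, via_of_not d τ hda]
      have h2 : ∀ τ : Perm (Fin k), ((sign τ : ℤ) : A) *
          cyc t (a :: (l ++ List.ofFn d)) (via d τ * σ) g =
          t (g a) * (((sign τ : ℤ) : A) * cyc t (l ++ List.ofFn d) (via d τ * σ) g) := by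
        intro τ
        rw [cyc_fix t _ g (h1 τ)]
        ring
      simp only [h2]
      rw [← Finset.mul_sum, ih (hσ.of_cons ha) hn2, mul_zero]
    · have h1 : ∀ τ : Perm (Fin k), (via d τ * σ) a ≠ a := fun τ h => by
        apply ha
        rw [mul_apply] at h
        have h2 := via_of_not d τ hda
        exact (via d τ).injective (h.trans h2.symm)
      have h2 : ∀ τ : Perm (Fin k), cyc t (a :: (l ++ List.ofFn d)) (via d τ * σ) g =
          cyc t (l ++ List.ofFn d) (via d τ * (swap a (σ a) * σ))
            (Function.update g (σ.symm a) (g (σ.symm a) * g a)) := by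
        intro τ
        rw [cyc_move t _ g (h1 τ)]
        have e1 : (via d τ * σ).symm a = σ.symm a := by
          rw [Equiv.symm_apply_eq, mul_apply, Equiv.apply_symm_apply, via_of_not d τ hda]
        have e2 : swap a ((via d τ * σ) a) * (via d τ * σ) = via d τ * (swap a (σ a) * σ) := by
          rw [← mul_assoc, ← mul_assoc, Equiv.mul_swap_eq_swap_mul, via_of_not d τ hda]
          rfl
        rw [e1, e2]
      simp only [h2]
      exact ih hσ.peel hn2 _

/-- The product over the cycles, for a finite set of letters. -/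
def cycT [Fintype α] (t : G → A) (σ : Perm α) (g : α → G) : A :=
  cyc t (Finset.univ : Finset α).toList σ g

omit [DecidableEq α] in
theorem fixes_of_mem {l : List α} (h : ∀ x, x ∈ l) (σ : Perm α) : Fixes l σ := fun x hx =>
  absurd (h x) hx

theorem cycT_eq [Fintype α] (t : G → A) (ht : ∀ x y, t (x * y) = t (y * x)) {l : List α}
    (hl : l.Nodup) (hm : ∀ x, x ∈ l) (σ : Perm α) (g : α → G) : cycT t σ g = cyc t l σ g := by
  refine cyc_perm t ht ?_ (Finset.nodup_toList _) (fixes_of_mem (fun x => by simp) σ) g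
  rw [List.perm_ext_iff_of_nodup (Finset.nodup_toList _) hl]
  intro x
  simp [hm x]

/-- The relation given by `k` letters. -/
theorem cycT_alt [Fintype α] (t : G → A) (ht : ∀ x y, t (x * y) = t (y * x)) {k : ℕ}
    (hk : ∀ y : Fin k → G, pol t k y = 0) (d : Fin k ↪ α) (σ : Perm α) (g : α → G) :
    ∑ τ : Perm (Fin k), ((sign τ : ℤ) : A) * cycT t (via d τ * σ) g = 0 := by
  classical
  obtain ⟨l, hl⟩ : ∃ l : List α, l = (Finset.univ \ Finset.univ.map d).toList := ⟨_, rfl⟩
  have hmem : ∀ x, x ∈ l ↔ ∀ y, d y ≠ x := by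
    intro x
    rw [hl]
    simp
  have hn : (l ++ List.ofFn d).Nodup := by
    refine List.Nodup.append ?_ (List.nodup_ofFn.2 d.injective) ?_
    · rw [hl]
      exact Finset.nodup_toList _
    · intro x hx hx'
      rw [List.mem_ofFn] at hx'
      obtain ⟨y, hy⟩ := hx'
      exact (hmem x).1 hx y hy
  have hm : ∀ x, x ∈ l ++ List.ofFn d := by
    intro x
    rw [List.mem_append, List.mem_ofFn, hmem]
    by_cases hx : ∃ y, d y = x
    · exact Or.inr hx
    · exact Or.inl (not_exists.1 hx)
  simp only [cycT_eq t ht hn hm]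
  exact alt_zero t hk d l (fixes_of_mem hm σ) hn g

end Pool.Agent.CycH74
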