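import Mathlib

/-! # Products over the cycles of a permutation

`cyc t l σ g` is the product over the cycles of the permutation `σ` (which fixes everything outside the
list `l`) of the values of the class function `t` at the products `g a * g (σ a) * g (σ (σ a)) * ...`.
The recursion removes the first element `a` of the list from its cycle: `g a` is multiplied to the element
before it. -/

set_option autoImplicit false

noncomputable section

namespace Pool.Agent.CycH74

open Equiv Equiv.Perm

variable {α G A : Type} [DecidableEq α] [Mul G] [CommRing A]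

/-- The product over the cycles. -/
def cyc (t : G → A) : List α → Perm α → (α → G) → A
  | [], _, _ => 1
  | a :: l, σ, g =>
    if σ a = a then t (g a) * cyc t l σ g
    else cyc t l (swap a (σ a) * σ) (Function.update g (σ.symm a) (g (σ.symm a) * g a))

theorem cyc_fix (t : G → A) {a : α} (l : List α) {σ : Perm α} (g : α → G) (h : σ a = a) :
    cyc t (a :: l) σ g = t (g a) * cyc t l σ g := by
  rw [cyc, if_pos h]

theorem cyc_move (t : G → A) {a : α} (l : List α) {σ : Perm α} (g : α → G) (h : σ a ≠ a) :
    cyc t (a :: l) σ g =
      cyc t l (swap a (σ a) * σ) (Function.update g (σ.symm a) (g (σ.symm a) * g a)) := by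
  rw [cyc, if_neg h]

/-- The permutation `σ` fixes everything outside the list. -/
def Fixes (l : List α) (σ : Perm α) : Prop := ∀ x, x ∉ l → σ x = x

omit [DecidableEq α] in
theorem Fixes.of_cons {a : α} {l : List α} {σ : Perm α} (h : Fixes (a :: l) σ) (ha : σ a = a) :
    Fixes l σ := by
  intro x hx
  by_cases hxa : x = a
  · rw [hxa, ha]
  · exact h x (by simp [hxa, hx])

omit [DecidableEq α] in
theorem Fixes.inv_mem {a : α} {l : List α} {σ : Perm α} (h : Fixes (a :: l) σ) (ha : σ a ≠ a) :
    σ.symm a ∈ l := by
  by_contra hx
  have h1 : σ.symm a ≠ a := by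
    intro h2
    apply ha
    rw [Equiv.symm_apply_eq] at h2
    exact h2.symm
  have h2 := h (σ.symm a) (by simp [h1, hx])
  rw [Equiv.apply_symm_apply] at h2
  exact h1 h2.symm

theorem Fixes.peel {a : α} {l : List α} {σ : Perm α} (h : Fixes (a :: l) σ) :
    Fixes l (swap a (σ a) * σ) := by
  intro x hx
  rw [mul_apply]
  by_cases hxa : x = a
  · rw [hxa, swap_apply_right]
  · have h1 := h x (by simp [hxa, hx])
    rw [h1]
    refine swap_apply_of_ne_of_ne hxa ?_
    intro h2
    rw [← h1] at h2
    exact hxa (σ.injective h2)

theorem cyc_congr (t : G → A) {l : List α} {σ : Perm α} (hσ : Fixes l σ) {g g' : α → G}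
    (h : ∀ x ∈ l, g x = g' x) : cyc t l σ g = cyc t l σ g' := by
  induction l generalizing σ g g' with
  | nil => rfl
  | cons a l ih =>
    by_cases ha : σ a = a
    · rw [cyc_fix t l g ha, cyc_fix t l g' ha, h a (by simp),
        ih (hσ.of_cons ha) fun x hx => h x (by simp [hx])]
    · rw [cyc_move t l g ha, cyc_move t l g' ha]
      refine ih hσ.peel fun x hx => ?_
      have h1 := hσ.inv_mem ha
      rw [h a (by simp), h (σ.symm a) (by simp [h1])]
      by_cases hx' : x = σ.symm a
      · rw [hx', Function.update_self, Function.update_self]
      · rw [Function.update_of_ne hx', Function.update_of_ne hx']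
        exact h x (by simp [hx])

end Pool.Agent.CycH74
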