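import Pool.Agent.W_7742h_h74.GSft
import Pool.Agent.W_7742z_h74.Gram

/-! # The Gram determinants of a pseudo-character -/

set_option autoImplicit false

noncomputable section

namespace Pool.Agent.CycH74

open Equiv Equiv.Perm
open Pool.Agent.OneI74 (pol pol_succ pol_zero det_gram)

variable {β : Type} [Fintype β] [LinearOrder β] {G A : Type} [Semigroup G] [CommRing A]

/-- The letters `x i`. -/
def lx (i : β) : β ⊕ₗ β := toLex (Sum.inl i)

/-- The letters `y j`. -/
def ly (j : β) : β ⊕ₗ β := toLex (Sum.inr j)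

omit [Fintype β] [LinearOrder β] in
theorem lx_inj {i j : β} (h : lx i = lx j) : i = j := Sum.inl_injective (toLex.injective h)

omit [Fintype β] [LinearOrder β] in
theorem ly_inj {i j : β} (h : ly i = ly j) : i = j := Sum.inr_injective (toLex.injective h)

omit [Fintype β] [LinearOrder β] in
theorem lx_ne_ly (i j : β) : lx i ≠ ly j := fun h => by
  have h1 : (Sum.inl i : β ⊕ β) = Sum.inr j := toLex.injective h
  cases h1

omit [Fintype β] [LinearOrder β] in
theorem lxly (a : β ⊕ₗ β) : (∃ i, a = lx i) ∨ ∃ j, a = ly j := by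
  rcases h : ofLex a with i | j
  · exact Or.inl ⟨i, by rw [lx, ← h]; rfl⟩
  · exact Or.inr ⟨j, by rw [ly, ← h]; rfl⟩

theorem cyc_one {α : Type} [DecidableEq α] (t : G → A) (l : List α) (g : α → G) :
    cyc t l 1 g = (l.map fun a => t (g a)).prod := by
  induction l with
  | nil => rfl
  | cons a l ih => rw [cyc_fix t l g (by rfl), ih, List.map_cons, List.prod_cons]

theorem cyc_pairs (t : G → A) (π : Perm β) (m : List β) (hm : m.Nodup) (σ : Perm (β ⊕ₗ β))
    (h1 : ∀ j ∈ m, σ (ly j) = lx (π.symm j)) (h2 : ∀ j ∈ m, σ (lx (π.symm j)) = ly j)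
    (h3 : ∀ j, j ∉ m → σ (ly j) = ly j) (h4 : ∀ j, j ∉ m → σ (lx (π.symm j)) = lx (π.symm j))
    (g : β ⊕ₗ β → G) :
    cyc t (m.map ly ++ (Finset.univ : Finset β).toList.map lx) σ g =
      ∏ i : β, if π i ∈ m then t (g (lx i) * g (ly (π i))) else t (g (lx i)) := by
  induction m generalizing σ g with
  | nil =>
    have hσ : σ = 1 := by
      ext a
      rcases lxly a with ⟨i, rfl⟩ | ⟨j, rfl⟩
      · have h5 := h4 (π i) (by simp)
        rw [Equiv.symm_apply_apply] at h5
        rw [h5]
        rfl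
      · rw [h3 j (by simp)]
        rfl
    rw [hσ, List.map_nil, List.nil_append, cyc_one, List.map_map]
    simp only [List.not_mem_nil, if_false]
    exact Finset.prod_map_toList _ _
  | cons j m ih =>
    obtain ⟨hjm, hm'⟩ := List.nodup_cons.1 hm
    have e1 : σ (ly j) = lx (π.symm j) := h1 j (by simp)
    have e2 : σ (lx (π.symm j)) = ly j := h2 j (by simp)
    have hne : σ (ly j) ≠ ly j := by
      rw [e1]
      exact lx_ne_ly _ _
    have e3 : σ.symm (ly j) = lx (π.symm j) := by rw [Equiv.symm_apply_eq, e2]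
    rw [List.map_cons, List.cons_append, cyc_move t _ g hne, e1, e3, ih hm']
    · refine Finset.prod_congr rfl fun i _ => ?_
      by_cases hi : π i = j
      · have hi' : i = π.symm j := by rw [← hi, Equiv.symm_apply_apply]
        rw [hi, if_neg hjm, if_pos (by simp), ← hi', Function.update_self]
      · have hi' : lx i ≠ lx (π.symm j) := by
          intro h
          apply hi
          rw [lx_inj h, Equiv.apply_symm_apply]
        rw [Function.update_of_ne hi', Function.update_of_ne (lx_ne_ly _ _).symm]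
        simp only [List.mem_cons, hi, false_or]
    · intro k hk
      have hkj : k ≠ j := fun h => hjm (h ▸ hk)
      rw [mul_apply, h1 k (by simp [hk])]
      refine swap_apply_of_ne_of_ne (lx_ne_ly _ _) ?_
      intro h
      exact hkj (π.symm.injective (lx_inj h))
    · intro k hk
      have hkj : k ≠ j := fun h => hjm (h ▸ hk)
      rw [mul_apply, h2 k (by simp [hk])]
      refine swap_apply_of_ne_of_ne ?_ (lx_ne_ly _ _).symm
      intro h
      exact hkj (ly_inj h)
    · intro k hk
      rw [mul_apply]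
      by_cases hkj : k = j
      · rw [hkj, e1, swap_apply_right]
      · rw [h3 k (by simp [hk, hkj])]
        refine swap_apply_of_ne_of_ne ?_ (lx_ne_ly _ _).symm
        intro h
        exact hkj (ly_inj h)
    · intro k hk
      rw [mul_apply]
      by_cases hkj : k = j
      · rw [hkj, e2, swap_apply_left]
      · rw [h4 k (by simp [hk, hkj])]
        refine swap_apply_of_ne_of_ne (lx_ne_ly _ _) ?_
        intro h
        exact hkj (π.symm.injective (lx_inj h))

omit [Fintype β] [LinearOrder β] in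
/-- The permutation which exchanges `x i` and `y (π i)`. -/
theorem exists_pair (π : Perm β) : ∃ σ : Perm (β ⊕ₗ β), (∀ j, σ (ly j) = lx (π.symm j)) ∧
    ∀ j, σ (lx (π.symm j)) = ly j := by
  refine ⟨⟨fun a => Sum.elim (fun i => ly (π i)) (fun j => lx (π.symm j)) (ofLex a),
    fun a => Sum.elim (fun i => ly (π i)) (fun j => lx (π.symm j)) (ofLex a), ?_, ?_⟩, ?_, ?_⟩
  · intro a
    rcases lxly a with ⟨i, rfl⟩ | ⟨j, rfl⟩
    · show lx (π.symm (π i)) = lx i
      rw [Equiv.symm_apply_apply]
    · show ly (π (π.symm j)) = ly j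
      rw [Equiv.apply_symm_apply]
  · intro a
    rcases lxly a with ⟨i, rfl⟩ | ⟨j, rfl⟩
    · show lx (π.symm (π i)) = lx i
      rw [Equiv.symm_apply_apply]
    · show ly (π (π.symm j)) = ly j
      rw [Equiv.apply_symm_apply]
  · intro j
    rfl
  · intro j
    show ly (π (π.symm j)) = ly j
    rw [Equiv.apply_symm_apply]

theorem cycT_pairs (t : G → A) (ht : ∀ x y, t (x * y) = t (y * x)) (π : Perm β)
    {σ : Perm (β ⊕ₗ β)} (h1 : ∀ j, σ (ly j) = lx (π.symm j)) (h2 : ∀ j, σ (lx (π.symm j)) = ly j)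
    (g : β ⊕ₗ β → G) : cycT t σ g = ∏ i : β, t (g (lx i) * g (ly (π i))) := by
  have hn : ((Finset.univ : Finset β).toList.map ly ++
      (Finset.univ : Finset β).toList.map lx).Nodup := by
    refine List.Nodup.append ((Finset.nodup_toList _).map fun i j h => ly_inj h)
      ((Finset.nodup_toList _).map fun i j h => lx_inj h) ?_
    intro a ha ha'
    rw [List.mem_map] at ha ha'
    obtain ⟨j, -, rfl⟩ := ha
    obtain ⟨i, -, hi⟩ := ha'
    exact lx_ne_ly _ _ hi
  have hm : ∀ a, a ∈ (Finset.univ : Finset β).toList.map ly ++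
      (Finset.univ : Finset β).toList.map lx := by
    intro a
    rw [List.mem_append, List.mem_map, List.mem_map]
    rcases lxly a with ⟨i, rfl⟩ | ⟨j, rfl⟩
    · exact Or.inr ⟨i, by simp, rfl⟩
    · exact Or.inl ⟨j, by simp, rfl⟩
  rw [cycT_eq t ht hn hm, cyc_pairs t π _ (Finset.nodup_toList _) σ (fun j _ => h1 j)
    (fun j _ => h2 j) (fun j hj => absurd (by simp) hj) (fun j hj => absurd (by simp) hj)]
  refine Finset.prod_congr rfl fun i _ => ?_
  rw [if_pos (by simp)]

omit [Fintype β] [LinearOrder β] in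
theorem cycT_inst {α : Type} [Fintype α] (i₁ i₂ : DecidableEq α) (t : G → A) (σ : Perm α)
    (g : α → G) : @cycT α G A i₁ _ _ _ t σ g = @cycT α G A i₂ _ _ _ t σ g := by
  have h : i₁ = i₂ := Subsingleton.elim i₁ i₂
  subst h
  rfl

/-- The Gram determinant as a relation. -/
theorem exists_rel : ∃ c : Perm (β ⊕ₗ β) → ℤ, ∀ {G' A' : Type} [Semigroup G'] [CommRing A']
    (t : G' → A') (_ : ∀ x y, t (x * y) = t (y * x)) (g : β ⊕ₗ β → G'),
    ev t g c = (Matrix.of fun i j : β => t (g (lx i) * g (ly j))).det := by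
  choose σ hσ1 hσ2 using fun π : Perm β => exists_pair π
  refine ⟨∑ π : Perm β, (sign π : ℤ) • Pi.single (σ π) 1, fun {G' A'} _ _ t ht g => ?_⟩
  rw [ev_sum, ← Matrix.det_transpose, Matrix.det_apply']
  refine Finset.sum_congr rfl fun π _ => ?_
  have h5 : ev t g (Pi.single (σ π) 1) = cycT t (σ π) g := by
    unfold ev
    rw [Finset.sum_eq_single (σ π)]
    · rw [Pi.single_eq_same, Int.cast_one, one_mul]
      exact cycT_inst _ _ t (σ π) g
    · intro τ _ hτ
      rw [Pi.single_eq_of_ne hτ, Int.cast_zero, zero_mul]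
    · intro h
      exact absurd (Finset.mem_univ _) h
  rw [ev_smul, h5, cycT_pairs t ht π (hσ1 π) (hσ2 π)]
  rfl

/-- The Gram determinants of size `n ^ 2 + 1` vanish. -/
theorem gram_zero {n : ℕ} (t : G → A) (ht : ∀ x y, t (x * y) = t (y * x))
    (hk : ∀ y : Fin (n + 1) → G, pol t (n + 1) y = 0) (x y : Fin (n ^ 2 + 1) → G) :
    (Matrix.of fun i j => t (x i * y j)).det = 0 := by
  obtain ⟨c, hc⟩ := exists_rel (β := Fin (n ^ 2 + 1))
  obtain ⟨g, hg1, hg2⟩ : ∃ g : Fin (n ^ 2 + 1) ⊕ₗ Fin (n ^ 2 + 1) → G,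
      (∀ i, g (lx i) = x i) ∧ ∀ j, g (ly j) = y j :=
    ⟨fun a => Sum.elim x y (ofLex a), fun i => rfl, fun j => rfl⟩
  have h1 : ∀ X : Fin (n ^ 2 + 1) ⊕ₗ Fin (n ^ 2 + 1) → MU n, ev MU.tr X c = 0 := by
    intro X
    rw [hc MU.tr MU.tr_comm X]
    have h2 : (Matrix.of fun i j : Fin (n ^ 2 + 1) => MU.tr (X (lx i) * X (ly j))) =
        Matrix.of fun i j => ((X (lx i)).mat * (X (ly j)).mat).trace := by
      ext i j
      rw [Matrix.of_apply, Matrix.of_apply, ← MU.mat_mul]
      rfl
    rw [h2]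
    exact det_gram (by omega) _ _
  have h3 := sft c h1 t ht hk g
  rw [hc t ht g] at h3
  simp only [hg1, hg2] at h3
  exact h3

end Pool.Agent.CycH74
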