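import Pool.Agent.W_7742h_h74.GUni

/-! # The lexicographic order of the permutations; permutations without long decreasing subsequences -/

set_option autoImplicit false

noncomputable section

namespace Pool.Agent.CycH74

open Equiv Equiv.Perm

variable {α : Type} [Fintype α] [LinearOrder α]

/-- The permutation as an element of the lexicographic order. -/
def code (σ : Perm α) : Lex (α → α) := toLex (σ : α → α)

omit [Fintype α] in
theorem code_inj {σ τ : Perm α} (h : code σ = code τ) : σ = τ := by
  have h1 : (σ : α → α) = τ := toLex.injective h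
  exact DFunLike.coe_injective h1

omit [Fintype α] in
theorem code_lt {σ τ : Perm α} : code σ < code τ ↔ ∃ i, (∀ j < i, σ j = τ j) ∧ σ i < τ i :=
  Iff.rfl

/-- There is a decreasing subsequence of length `k`: `d` are its values, in increasing order. -/
def Bad (k : ℕ) (σ : Perm α) : Prop :=
  ∃ d : Fin k → α, StrictMono d ∧ StrictAnti fun i => σ.symm (d i)

omit [Fintype α] in
/-- Permuting the values of a decreasing subsequence gives smaller permutations. -/
theorem via_lt {k : ℕ} {σ : Perm α} {d : Fin k ↪ α} (h1 : StrictMono d)
    (h2 : StrictAnti fun i => σ.symm (d i)) {τ : Perm (Fin k)} (hτ : τ ≠ 1) :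
    code (via d τ * σ) < code σ := by
  classical
  have hex : (Finset.univ.filter fun i => τ i ≠ i).Nonempty := by
    by_contra hcon
    rw [Finset.not_nonempty_iff_eq_empty, Finset.filter_eq_empty_iff] at hcon
    apply hτ
    ext i
    have := hcon (Finset.mem_univ i)
    rw [not_not] at this
    rw [this]
    rfl
  obtain ⟨m, hm, hmax⟩ := Finset.exists_max_image _ id hex
  rw [Finset.mem_filter] at hm
  have hfix : ∀ i, m < i → τ i = i := by
    intro i hi
    by_contra hne
    have := hmax i (Finset.mem_filter.2 ⟨Finset.mem_univ _, hne⟩)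
    exact absurd this (not_le.2 hi)
  have hlt : τ m < m := by
    rcases lt_trichotomy (τ m) m with h | h | h
    · exact h
    · exact absurd h hm.2
    · have h3 := hfix _ h
      exact absurd (τ.injective h3) hm.2
  rw [code_lt]
  refine ⟨σ.symm (d m), fun j hj => ?_, ?_⟩
  · rw [mul_apply]
    by_cases hx : ∃ y, d y = σ j
    · obtain ⟨y, hy⟩ := hx
      have hj' : σ.symm (d y) < σ.symm (d m) := by
        rw [hy, Equiv.symm_apply_apply]
        exact hj
      have hym : m < y := by
        by_contra hcon
        rcases (not_lt.1 hcon).eq_or_lt with h | h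
        · rw [h] at hj'
          exact lt_irrefl _ hj'
        · exact lt_asymm hj' (h2 h)
      rw [← hy, via_apply, hfix y hym]
    · rw [not_exists] at hx
      exact via_of_not d τ hx
  · rw [mul_apply, Equiv.apply_symm_apply, via_apply]
    exact h1 hlt

/-- A permutation without decreasing subsequence of length `n + 1` is determined, as the smallest one, by
suitable colourings of the values and the positions. -/
theorem exists_colour {n : ℕ} {σ₀ : Perm α} (h : ¬ Bad (n + 1) σ₀) :
    ∃ u v : α → Fin n, (∀ a, v a = u (σ₀ a)) ∧
      ∀ σ : Perm α, (∀ a, v a = u (σ a)) → code σ₀ ≤ code σ := by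
  classical
  let P : α → ℕ → Prop := fun v k => ∃ d : Fin (k + 1) → α, StrictMono d ∧
    (StrictAnti fun i => σ₀.symm (d i)) ∧ d 0 = v
  have hP0 : ∀ v, P v 0 := fun v => ⟨fun _ => v, fun i j hij => by
    exact absurd hij (by omega), fun i j hij => by
    exact absurd hij (by omega), rfl⟩
  have hPn : ∀ v k, P v k → k < n := by
    intro v k hk
    by_contra hcon
    obtain ⟨d, hd1, hd2, -⟩ := hk
    have hle : n + 1 ≤ k + 1 := by omega
    exact h ⟨fun i => d (Fin.castLE hle i), fun i j hij => hd1 (by simpa using hij),
      fun i j hij => hd2 (a := Fin.castLE hle i) (b := Fin.castLE hle j) (by simpa using hij)⟩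
  obtain ⟨L, hL⟩ : ∃ L : α → ℕ, ∀ v, L v = Nat.findGreatest (P v) n := ⟨_, fun _ => rfl⟩
  have hLP : ∀ v, P v (L v) := by
    intro v
    rw [hL]
    exact Nat.findGreatest_spec (P := P v) (Nat.zero_le _) (hP0 v)
  have hLn : ∀ v, L v < n := fun v => hPn v _ (hLP v)
  have hstep : ∀ i j, i < j → σ₀ j < σ₀ i → L (σ₀ i) < L (σ₀ j) := by
    intro i j hij hji
    obtain ⟨d, hd1, hd2, hd0⟩ := hLP (σ₀ i)
    have hP : P (σ₀ j) (L (σ₀ i) + 1) := by
      refine ⟨Fin.cons (σ₀ j) d, ?_, ?_, rfl⟩
      · intro a b hab
        induction a using Fin.cases with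
        | zero =>
          induction b using Fin.cases with
          | zero => exact absurd hab (lt_irrefl _)
          | succ b =>
            rw [Fin.cons_zero, Fin.cons_succ]
            refine lt_of_lt_of_le (lt_of_lt_of_eq hji hd0.symm) (hd1.monotone (Fin.zero_le _))
        | succ a =>
          induction b using Fin.cases with
          | zero => exact absurd hab (Fin.not_lt_zero _)
          | succ b =>
            rw [Fin.cons_succ, Fin.cons_succ]
            exact hd1 (Fin.succ_lt_succ_iff.1 hab)
      · intro a b hab
        induction a using Fin.cases with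
        | zero =>
          induction b using Fin.cases with
          | zero => exact absurd hab (lt_irrefl _)
          | succ b =>
            show σ₀.symm (Fin.cons (α := fun _ => α) (σ₀ j) d b.succ) <
              σ₀.symm (Fin.cons (α := fun _ => α) (σ₀ j) d 0)
            rw [Fin.cons_zero, Fin.cons_succ, Equiv.symm_apply_apply]
            refine lt_of_le_of_lt (hd2.antitone (Fin.zero_le b)) ?_
            show σ₀.symm (d 0) < j
            rw [hd0, Equiv.symm_apply_apply]
            exact hij
        | succ a =>
          induction b using Fin.cases with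
          | zero => exact absurd hab (Fin.not_lt_zero _)
          | succ b =>
            show σ₀.symm (Fin.cons (α := fun _ => α) (σ₀ j) d b.succ) <
              σ₀.symm (Fin.cons (α := fun _ => α) (σ₀ j) d a.succ)
            rw [Fin.cons_succ, Fin.cons_succ]
            exact hd2 (Fin.succ_lt_succ_iff.1 hab)
    have h1 := Nat.le_findGreatest (P := P (σ₀ j)) (hPn _ _ hP).le hP
    rw [← hL] at h1
    exact h1
  refine ⟨fun v => ⟨L v, hLn v⟩, fun a => ⟨L (σ₀ a), hLn _⟩, fun a => rfl, fun σ hσ => ?_⟩
  rcases lt_or_ge (code σ) (code σ₀) with h1 | h1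
  · exfalso
    obtain ⟨i, h2, h3⟩ := code_lt.1 h1
    obtain ⟨m, hm⟩ : ∃ m, σ₀ m = σ i := ⟨σ₀.symm (σ i), Equiv.apply_symm_apply _ _⟩
    have hmi : i < m := by
      rcases lt_trichotomy i m with h | h | h
      · exact h
      · rw [← h] at hm
        rw [hm] at h3
        exact absurd h3 (lt_irrefl _)
      · have h4 := h2 m h
        rw [hm] at h4
        exact absurd (σ.injective h4) h.ne
    have h5 : L (σ₀ i) = L (σ₀ m) := by
      have h6 := congrArg Fin.val (hσ i)
      rw [hm]
      exact h6
    rcases lt_trichotomy (σ₀ m) (σ₀ i) with h | h | h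
    · exact absurd h5 (hstep i m hmi h).ne
    · exact absurd (σ₀.injective h) hmi.ne'
    · rw [hm] at h
      exact lt_asymm h h3
  · exact h1

end Pool.Agent.CycH74
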