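import Pool.Agent.W_7742h_h74.GCyc

/-! # The product over the cycles does not depend on the order of the list -/

set_option autoImplicit false

noncomputable section

namespace Pool.Agent.CycH74

open Equiv Equiv.Perm

variable {α G A : Type} [DecidableEq α] [Semigroup G] [CommRing A]

/-- `σ a = a`, `σ b ≠ b`. -/
theorem swap_one (t : G → A) {a b : α} {l : List α} {σ : Perm α} (g : α → G)
    (hab : a ≠ b) (ha : σ a = a) (hb : σ b ≠ b) :
    cyc t (a :: b :: l) σ g = cyc t (b :: a :: l) σ g := by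
  have h1 : σ.symm b ≠ a := by
    intro h
    rw [Equiv.symm_apply_eq, ha] at h
    exact hab h.symm
  have h2 : σ b ≠ a := by
    intro h
    have h3 : σ b = σ a := h.trans ha.symm
    exact hab (σ.injective h3).symm
  have h3 : (swap b (σ b) * σ) a = a := by
    rw [mul_apply, ha]
    exact swap_apply_of_ne_of_ne hab h2.symm
  rw [cyc_fix t _ g ha, cyc_move t _ g hb, cyc_move t _ g hb, cyc_fix t _ _ h3,
    Function.update_of_ne h1.symm]

/-- `σ a = b`, `σ b = a`. -/
theorem swap_two (t : G → A) (ht : ∀ x y, t (x * y) = t (y * x)) {a b : α} {l : List α}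
    {σ : Perm α} (g : α → G) (hab : a ≠ b) (hal : a ∉ l) (hbl : b ∉ l)
    (hσ : Fixes (a :: b :: l) σ) (ha : σ a = b) (hb : σ b = a) :
    cyc t (a :: b :: l) σ g = cyc t (b :: a :: l) σ g := by
  have h1 : σ.symm a = b := by rw [Equiv.symm_apply_eq, hb]
  have h2 : σ.symm b = a := by rw [Equiv.symm_apply_eq, ha]
  have h3 : (swap a b * σ) b = b := by rw [mul_apply, hb, swap_apply_left]
  have h4 : (swap b a * σ) a = a := by rw [mul_apply, ha, swap_apply_left]
  rw [cyc_move t _ g (by rw [ha]; exact hab.symm), cyc_move t _ g (by rw [hb]; exact hab), ha, hb,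
    h1, h2, cyc_fix t _ _ h3, cyc_fix t _ _ h4, Function.update_self, Function.update_self, ht,
    swap_comm b a]
  congr 1
  have hF : Fixes l (swap a b * σ) := by
    have h5 := hσ.peel
    rw [ha] at h5
    exact h5.of_cons h3
  refine cyc_congr t hF fun x hx => ?_
  have hxa : x ≠ a := fun h => hal (h ▸ hx)
  have hxb : x ≠ b := fun h => hbl (h ▸ hx)
  rw [Function.update_of_ne hxb, Function.update_of_ne hxa]

/-- `σ a = b`, `σ b ≠ a`. -/
theorem swap_three (t : G → A) {a b : α} {l : List α}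
    {σ : Perm α} (g : α → G) (hab : a ≠ b) (hal : a ∉ l) (hbl : b ∉ l)
    (hσ : Fixes (a :: b :: l) σ) (ha : σ a = b) (hb : σ b ≠ a) :
    cyc t (a :: b :: l) σ g = cyc t (b :: a :: l) σ g := by
  obtain ⟨q, hq⟩ : ∃ q, q = σ.symm a := ⟨_, rfl⟩
  obtain ⟨c, hc⟩ : ∃ c, c = σ b := ⟨_, rfl⟩
  have hσq : σ q = a := by rw [hq, Equiv.apply_symm_apply]
  have hqb : q ≠ b := by
    intro h
    rw [h] at hσq
    exact hb hσq
  have hqa : q ≠ a := by
    intro h
    rw [h, ha] at hσq
    exact hab hσq.symm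
  have hca : c ≠ a := by rw [hc]; exact hb
  have hcb : c ≠ b := by
    intro h
    have h3 : σ b = σ a := by rw [← hc, h, ha]
    exact hab.symm (σ.injective h3)
  have hbb : σ b ≠ b := by rw [← hc]; exact hcb
  have h2 : σ.symm b = a := by rw [Equiv.symm_apply_eq, ha]
  -- first `a`, then `b`
  have e1 : (swap a b * σ) b = c := by
    rw [mul_apply, ← hc]
    exact swap_apply_of_ne_of_ne hca hcb
  have e2 : (swap a b * σ).symm b = q := by
    rw [Equiv.symm_apply_eq, mul_apply, hσq, swap_apply_left]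
  -- first `b`, then `a`
  have f1 : (swap b c * σ) a = c := by rw [mul_apply, ha, swap_apply_left]
  have f2 : (swap b c * σ).symm a = q := by
    rw [Equiv.symm_apply_eq, mul_apply, hσq]
    exact (swap_apply_of_ne_of_ne hab hca.symm).symm
  rw [cyc_move t _ g (by rw [ha]; exact hab.symm), cyc_move t _ g hbb, ha, ← hc, ← hq, h2,
    cyc_move t _ _ (by rw [e1]; exact hcb), cyc_move t _ _ (by rw [f1]; exact hca), e1, e2, f1, f2]
  have e3 : swap b c * (swap a b * σ) = swap a c * (swap b c * σ) := by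
    rw [← mul_assoc, ← mul_assoc]
    congr 1
    rw [Equiv.mul_swap_eq_swap_mul, swap_apply_left,
      swap_apply_of_ne_of_ne hab hca.symm]
  rw [e3]
  have hF : Fixes l (swap a c * (swap b c * σ)) := by
    have h5 := hσ.peel
    rw [ha] at h5
    have h6 := h5.peel
    rw [e1, e3] at h6
    exact h6
  refine cyc_congr t hF fun x hx => ?_
  have hxa : x ≠ a := fun h => hal (h ▸ hx)
  by_cases hxq : x = q
  · rw [hxq, Function.update_self, Function.update_self, Function.update_self,
      Function.update_of_ne hqb.symm, Function.update_of_ne hqa, Function.update_self, mul_assoc]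
  · rw [Function.update_of_ne hxq, Function.update_of_ne hxq, Function.update_of_ne hxq,
      Function.update_of_ne hxa]

/-- `σ a ≠ a, b`, `σ b ≠ a, b`. -/
theorem swap_four (t : G → A) {a b : α} {l : List α}
    {σ : Perm α} (g : α → G) (hab : a ≠ b)
    (haa : σ a ≠ a) (hbb : σ b ≠ b) (ha : σ a ≠ b) (hb : σ b ≠ a) :
    cyc t (a :: b :: l) σ g = cyc t (b :: a :: l) σ g := by
  obtain ⟨q, hq⟩ : ∃ q, q = σ.symm a := ⟨_, rfl⟩
  obtain ⟨r, hr⟩ : ∃ r, r = σ.symm b := ⟨_, rfl⟩
  obtain ⟨a', ha'⟩ : ∃ a', a' = σ a := ⟨_, rfl⟩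
  obtain ⟨b', hb'⟩ : ∃ b', b' = σ b := ⟨_, rfl⟩
  have hσq : σ q = a := by rw [hq, Equiv.apply_symm_apply]
  have hσr : σ r = b := by rw [hr, Equiv.apply_symm_apply]
  have hqb : q ≠ b := by
    intro h
    rw [h] at hσq
    exact hb hσq
  have hra : r ≠ a := by
    intro h
    rw [h] at hσr
    exact ha hσr
  have hqr : q ≠ r := by
    intro h
    rw [h, hσr] at hσq
    exact hab hσq.symm
  have hab' : a' ≠ b' := by
    intro h
    rw [ha', hb'] at h
    exact hab (σ.injective h)
  rw [← ha'] at ha haa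
  rw [← hb'] at hb hbb
  have e1 : (swap a a' * σ) b = b' := by
    rw [mul_apply, ← hb']
    exact swap_apply_of_ne_of_ne hb hab'.symm
  have e2 : (swap a a' * σ).symm b = r := by
    rw [Equiv.symm_apply_eq, mul_apply, hσr]
    exact (swap_apply_of_ne_of_ne hab.symm ha.symm).symm
  have f1 : (swap b b' * σ) a = a' := by
    rw [mul_apply, ← ha']
    exact swap_apply_of_ne_of_ne ha hab'
  have f2 : (swap b b' * σ).symm a = q := by
    rw [Equiv.symm_apply_eq, mul_apply, hσq]
    exact (swap_apply_of_ne_of_ne hab hb.symm).symm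
  rw [cyc_move t _ g (by rw [← ha']; exact haa), cyc_move t _ g (by rw [← hb']; exact hbb), ← ha',
    ← hb', ← hq, ← hr, cyc_move t _ _ (by rw [e1]; exact hbb),
    cyc_move t _ _ (by rw [f1]; exact haa), e1, e2, f1, f2]
  have e3 : swap b b' * (swap a a' * σ) = swap a a' * (swap b b' * σ) := by
    rw [← mul_assoc, ← mul_assoc]
    congr 1
    rw [Equiv.mul_swap_eq_swap_mul, swap_apply_of_ne_of_ne hab hb.symm,
      swap_apply_of_ne_of_ne ha hab']
  rw [e3]
  congr 1
  rw [Function.update_of_ne hqb.symm, Function.update_of_ne hqr.symm,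
    Function.update_of_ne hra.symm, Function.update_of_ne hqr]
  exact Function.update_comm hqr _ _ _

theorem cyc_swap (t : G → A) (ht : ∀ x y, t (x * y) = t (y * x)) {a b : α} {l : List α}
    {σ : Perm α} (g : α → G) (hab : a ≠ b) (hal : a ∉ l) (hbl : b ∉ l)
    (hσ : Fixes (a :: b :: l) σ) :
    cyc t (a :: b :: l) σ g = cyc t (b :: a :: l) σ g := by
  have hσ' : Fixes (b :: a :: l) σ := fun x hx => hσ x (by
    simp only [List.mem_cons, not_or] at hx ⊢
    exact ⟨hx.2.1, hx.1, hx.2.2⟩)
  by_cases ha : σ a = a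
  · by_cases hb : σ b = b
    · rw [cyc_fix t _ g ha, cyc_fix t _ g hb, cyc_fix t _ g hb, cyc_fix t _ g ha]
      ring
    · exact swap_one t g hab ha hb
  · by_cases hb : σ b = b
    · exact (swap_one t g hab.symm hb ha).symm
    · by_cases hab' : σ a = b
      · by_cases hba' : σ b = a
        · exact swap_two t ht g hab hal hbl hσ hab' hba'
        · exact swap_three t g hab hal hbl hσ hab' hba'
      · by_cases hba' : σ b = a
        · exact (swap_three t g hab.symm hbl hal hσ' hba' hab').symm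
        · exact swap_four t g hab ha hb hab' hba'

/-- The order of the list does not matter. -/
theorem cyc_perm (t : G → A) (ht : ∀ x y, t (x * y) = t (y * x)) {l l' : List α}
    (h : l.Perm l') (hl : l.Nodup) {σ : Perm α} (hσ : Fixes l σ) (g : α → G) :
    cyc t l σ g = cyc t l' σ g := by
  induction h generalizing σ g with
  | nil => rfl
  | cons a h ih =>
    have hl' := List.nodup_cons.1 hl
    by_cases ha : σ a = a
    · rw [cyc_fix t _ g ha, cyc_fix t _ g ha, ih hl'.2 (hσ.of_cons ha)]
    · rw [cyc_move t _ g ha, cyc_move t _ g ha, ih hl'.2 hσ.peel]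
  | swap a b l =>
    have h1 := List.nodup_cons.1 hl
    have h2 := List.nodup_cons.1 h1.2
    have h3 : b ≠ a := fun h => h1.1 (by rw [h]; simp)
    exact cyc_swap t ht g h3 (fun h => h1.1 (by simp [h])) h2.1 hσ
  | trans h1 h2 ih1 ih2 =>
    rw [ih1 hl hσ g]
    exact ih2 (h1.nodup_iff.1 hl) (fun x hx => hσ x fun hx' => hx (h1.subset hx')) g

end Pool.Agent.CycH74
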