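import Pool.Agent.W_7742h_h74.GLex

/-! # The second fundamental theorem

A relation with integer coefficients between the products over the cycles which holds for the traces of
the matrix units of size `n` holds for all class functions which satisfy the fundamental identity of
degree `n + 1` (compare de Concini-Procesi). -/

set_option autoImplicit false

noncomputable section

namespace Pool.Agent.CycH74

open Equiv Equiv.Perm
open Pool.Agent.OneI74 (pol pol_succ pol_zero)

variable {α : Type} [Fintype α] [LinearOrder α] {G A : Type} [Semigroup G] [CommRing A]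

/-- The relation given by `c`. -/
def ev (t : G → A) (g : α → G) (c : Perm α → ℤ) : A := ∑ σ, (c σ : A) * cycT t σ g

theorem ev_add (t : G → A) (g : α → G) (c c' : Perm α → ℤ) :
    ev t g (c + c') = ev t g c + ev t g c' := by
  unfold ev
  rw [← Finset.sum_add_distrib]
  refine Finset.sum_congr rfl fun σ _ => ?_
  rw [Pi.add_apply]
  push_cast
  ring

theorem ev_smul (t : G → A) (g : α → G) (m : ℤ) (c : Perm α → ℤ) :
    ev t g (m • c) = (m : A) * ev t g c := by
  unfold ev
  rw [Finset.mul_sum]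
  refine Finset.sum_congr rfl fun σ _ => ?_
  rw [Pi.smul_apply, smul_eq_mul]
  push_cast
  ring

theorem ev_zero (t : G → A) (g : α → G) : ev t g (0 : Perm α → ℤ) = 0 := by
  unfold ev
  refine Finset.sum_eq_zero fun σ _ => ?_
  rw [Pi.zero_apply, Int.cast_zero, zero_mul]

theorem ev_single (t : G → A) (g : α → G) (σ : Perm α) :
    ev t g (Pi.single σ 1) = cycT t σ g := by
  unfold ev
  rw [Finset.sum_eq_single σ]
  · rw [Pi.single_eq_same, Int.cast_one, one_mul]
  · intro τ _ hτ
    rw [Pi.single_eq_of_ne hτ, Int.cast_zero, zero_mul]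
  · intro h
    exact absurd (Finset.mem_univ _) h

theorem ev_sum {ι : Type} (s : Finset ι) (t : G → A) (g : α → G) (c : ι → Perm α → ℤ) :
    ev t g (∑ i ∈ s, c i) = ∑ i ∈ s, ev t g (c i) := by
  classical
  induction s using Finset.induction_on with
  | empty => rw [Finset.sum_empty, Finset.sum_empty, ev_zero]
  | insert i s hi ih => rw [Finset.sum_insert hi, Finset.sum_insert hi, ev_add, ih]

/-- Straightening. -/
theorem straighten {n : ℕ} (t : G → A) (ht : ∀ x y, t (x * y) = t (y * x))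
    (hk : ∀ y : Fin (n + 1) → G, pol t (n + 1) y = 0) (g : α → G) (σ : Perm α) :
    ∃ c : Perm α → ℤ, (∀ τ, c τ ≠ 0 → ¬ Bad (n + 1) τ) ∧ ev t g c = ev t g (Pi.single σ 1) ∧
      ∀ X : α → MU n, ev MU.tr X c = ev MU.tr X (Pi.single σ 1) := by
  classical
  have hwf : WellFounded fun σ τ : Perm α => code σ < code τ :=
    Finite.wellFounded_of_trans_of_irrefl _
  induction σ using hwf.induction with
  | h σ ih =>
  by_cases hb : Bad (n + 1) σ
  · obtain ⟨d, hd1, hd2⟩ := hb
    obtain ⟨d', hd'⟩ : ∃ d' : Fin (n + 1) ↪ α, (d' : Fin (n + 1) → α) = d :=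
      ⟨⟨d, hd1.injective⟩, rfl⟩
    subst hd'
    have h1 : ∀ τ : Perm (Fin (n + 1)), τ ≠ 1 → code (via d' τ * σ) < code σ := fun τ hτ =>
      via_lt hd1 hd2 hτ
    choose! c hc1 hc2 hc3 using fun (τ : Perm (Fin (n + 1))) (hτ : τ ≠ 1) => ih _ (h1 τ hτ)
    have key : ∀ {G' A' : Type} [Semigroup G'] [CommRing A'] (t' : G' → A')
        (_ : ∀ x y, t' (x * y) = t' (y * x))
        (_ : ∀ y : Fin (n + 1) → G', pol t' (n + 1) y = 0) (g' : α → G')
        (_ : ∀ τ : Perm (Fin (n + 1)), τ ≠ 1 →
          ev t' g' (c τ) = ev t' g' (Pi.single (via d' τ * σ) 1)),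
        ev t' g' (∑ τ ∈ Finset.univ.erase (1 : Perm (Fin (n + 1))), (-(sign τ : ℤ)) • c τ) =
          ev t' g' (Pi.single σ 1) := by
      intro G' A' _ _ t' ht' hk' g' hc
      rw [ev_sum, ev_single]
      have h2 := cycT_alt t' ht' hk' d' σ g'
      rw [← Finset.add_sum_erase _ _ (Finset.mem_univ (1 : Perm (Fin (n + 1)))), Perm.sign_one,
        Units.val_one, Int.cast_one, one_mul, show via d' 1 = 1 from map_one _, one_mul] at h2
      rw [eq_neg_of_add_eq_zero_left h2, ← Finset.sum_neg_distrib]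
      refine Finset.sum_congr rfl fun τ hτ => ?_
      rw [ev_smul, hc τ (Finset.ne_of_mem_erase hτ), ev_single]
      push_cast
      ring
    refine ⟨_, fun τ hτ => ?_, key t ht hk g hc2, fun X => key MU.tr MU.tr_comm MU.pol_tr X
      fun τ hτ => hc3 τ hτ X⟩
    by_contra hbad
    apply hτ
    rw [Finset.sum_apply]
    refine Finset.sum_eq_zero fun τ' hτ' => ?_
    rw [Pi.smul_apply]
    by_cases h0 : c τ' τ = 0
    · rw [h0, smul_zero]
    · exact absurd hbad (hc1 τ' (Finset.ne_of_mem_erase hτ') τ h0)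
  · refine ⟨Pi.single σ 1, fun τ hτ => ?_, rfl, fun _ => rfl⟩
    by_cases h : τ = σ
    · rw [h]
      exact hb
    · rw [Pi.single_eq_of_ne h] at hτ
      exact absurd rfl hτ

/-- Independence. -/
theorem independent {n : ℕ} (c : Perm α → ℤ) (hc : ∀ τ, c τ ≠ 0 → ¬ Bad (n + 1) τ)
    (h : ∀ X : α → MU n, ev MU.tr X c = 0) : c = 0 := by
  classical
  by_contra hne
  have hex : (Finset.univ.filter fun σ => c σ ≠ 0).Nonempty := by
    by_contra hcon
    rw [Finset.not_nonempty_iff_eq_empty, Finset.filter_eq_empty_iff] at hcon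
    apply hne
    funext σ
    exact not_not.1 (hcon (Finset.mem_univ σ))
  obtain ⟨σ₀, hσ₀, hmax⟩ := Finset.exists_max_image _ code hex
  rw [Finset.mem_filter] at hσ₀
  obtain ⟨u, v, huv, hle⟩ := exists_colour (hc σ₀ hσ₀.2)
  have h1 := h fun a => MU.unit (u a) (v a)
  unfold ev at h1
  rw [Finset.sum_eq_single σ₀] at h1
  · rw [cycT_unit, if_pos huv, mul_one] at h1
    exact hσ₀.2 (by exact_mod_cast h1)
  · intro σ _ hσ
    rw [cycT_unit]
    by_cases h2 : ∀ a, v a = u (σ a)
    · have h3 : c σ = 0 := by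
        by_contra h4
        have h5 := hmax σ (Finset.mem_filter.2 ⟨Finset.mem_univ _, h4⟩)
        exact hσ (code_inj (le_antisymm h5 (hle σ h2)))
      rw [h3, Int.cast_zero, zero_mul]
    · rw [if_neg h2, mul_zero]
  · intro h2
    exact absurd (Finset.mem_univ _) h2

/-- The second fundamental theorem. -/
theorem sft {n : ℕ} (c : Perm α → ℤ) (hc : ∀ X : α → MU n, ev MU.tr X c = 0)
    (t : G → A) (ht : ∀ x y, t (x * y) = t (y * x))
    (hk : ∀ y : Fin (n + 1) → G, pol t (n + 1) y = 0) (g : α → G) : ev t g c = 0 := by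
  classical
  choose s hs1 hs2 hs3 using fun σ : Perm α => straighten t ht hk g σ
  have hsum : c = ∑ σ, c σ • Pi.single σ (1 : ℤ) := by
    funext τ
    rw [Finset.sum_apply, Finset.sum_eq_single τ]
    · rw [Pi.smul_apply, Pi.single_eq_same, smul_eq_mul, mul_one]
    · intro σ _ hσ
      rw [Pi.smul_apply, Pi.single_eq_of_ne hσ.symm, smul_zero]
    · intro h
      exact absurd (Finset.mem_univ _) h
  obtain ⟨c', hc'⟩ : ∃ c' : Perm α → ℤ, c' = ∑ σ, c σ • s σ := ⟨_, rfl⟩
  have h1 : ev t g c' = ev t g c := by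
    rw [hc']
    conv_rhs => rw [hsum]
    rw [ev_sum, ev_sum]
    refine Finset.sum_congr rfl fun σ _ => ?_
    rw [ev_smul, ev_smul, hs2]
  have h2 : ∀ X : α → MU n, ev MU.tr X c' = 0 := by
    intro X
    rw [← hc X, hc']
    conv_rhs => rw [hsum]
    rw [ev_sum, ev_sum]
    refine Finset.sum_congr rfl fun σ _ => ?_
    rw [ev_smul, ev_smul, hs3]
  have h3 : ∀ τ, c' τ ≠ 0 → ¬ Bad (n + 1) τ := by
    intro τ hτ hbad
    apply hτ
    rw [hc', Finset.sum_apply]
    refine Finset.sum_eq_zero fun σ _ => ?_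
    rw [Pi.smul_apply]
    by_cases h0 : s σ τ = 0
    · rw [h0, smul_zero]
    · exact absurd hbad (hs1 σ τ h0)
  rw [← h1, independent c' h3 h2, ev_zero]

end Pool.Agent.CycH74
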