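import Pool.Agent.W_7742h_h74.GAlz
import Pool.Agent.W_7742z_h74.PsA

/-! # The semigroup of the matrix units -/

set_option autoImplicit false

noncomputable section

namespace Pool.Agent.CycH74

open Equiv Equiv.Perm
open Pool.Agent.OneI74 (pol pol_succ pol_zero pol_comp pol_trace_succ)

/-- The matrix units of size `n`, and zero. -/
inductive MU (n : ℕ) : Type
  | zero : MU n
  | unit (i j : Fin n) : MU n

variable {n : ℕ}

/-- The row of a matrix unit. -/
def MU.row : MU n → Option (Fin n)
  | .zero => none
  | .unit i _ => some i

/-- The column of a matrix unit. -/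
def MU.col : MU n → Option (Fin n)
  | .zero => none
  | .unit _ j => some j

/-- The product. -/
def MU.mul : MU n → MU n → MU n
  | .unit i j, .unit k l => if j = k then .unit i l else .zero
  | .zero, _ => .zero
  | .unit _ _, .zero => .zero

instance : Mul (MU n) := ⟨MU.mul⟩

theorem MU.unit_mul (i j k l : Fin n) :
    (MU.unit i j * MU.unit k l : MU n) = if j = k then .unit i l else .zero := rfl

theorem MU.zero_mul (x : MU n) : (MU.zero * x : MU n) = .zero := rfl

theorem MU.mul_zero (x : MU n) : (x * MU.zero : MU n) = .zero := by
  cases x <;> rfl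

instance : Semigroup (MU n) where
  mul_assoc x y z := by
    cases x with
    | zero => rfl
    | unit i j =>
      cases y with
      | zero => rfl
      | unit k l =>
        cases z with
        | zero => rw [MU.mul_zero, MU.mul_zero, MU.mul_zero]
        | unit a b =>
          rw [MU.unit_mul, MU.unit_mul]
          by_cases h1 : j = k
          · by_cases h2 : l = a
            · rw [if_pos h1, if_pos h2, MU.unit_mul, MU.unit_mul, if_pos h2, if_pos h1]
            · rw [if_pos h1, if_neg h2, MU.unit_mul, if_neg h2, MU.mul_zero]
          · by_cases h2 : l = a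
            · rw [if_neg h1, if_pos h2, MU.unit_mul, if_neg h1, MU.zero_mul]
            · rw [if_neg h1, if_neg h2, MU.zero_mul, MU.mul_zero]

/-- The matrix. -/
def MU.mat : MU n → Matrix (Fin n) (Fin n) ℤ
  | .zero => 0
  | .unit i j => Matrix.single i j 1

/-- The trace. -/
def MU.tr (x : MU n) : ℤ := x.mat.trace

theorem MU.mat_mul (x y : MU n) : (x * y).mat = x.mat * y.mat := by
  cases x with
  | zero => exact (Matrix.zero_mul _).symm
  | unit i j =>
    cases y with
    | zero => exact (Matrix.mul_zero _).symm
    | unit k l =>
      rw [MU.unit_mul]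
      by_cases h : j = k
      · rw [if_pos h, h]
        show Matrix.single i l (1 : ℤ) = Matrix.single i k 1 * Matrix.single k l 1
        rw [Matrix.single_mul_single_same, one_mul]
      · rw [if_neg h]
        show (0 : Matrix (Fin n) (Fin n) ℤ) = Matrix.single i j 1 * Matrix.single k l 1
        rw [Matrix.single_mul_single_of_ne (h := h)]

theorem MU.tr_comm (x y : MU n) : MU.tr (x * y) = MU.tr (y * x) := by
  unfold MU.tr
  rw [MU.mat_mul, MU.mat_mul, Matrix.trace_mul_comm]

theorem MU.pol_tr (y : Fin (n + 1) → MU n) : pol MU.tr (n + 1) y = 0 := by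
  have h1 := pol_comp (fun x : MU n => x.mat) MU.mat_mul
    (fun M : Matrix (Fin n) (Fin n) ℤ => M.trace) (n + 1) y
  have h2 : (fun x : MU n => x.mat.trace) = MU.tr := rfl
  rw [h2] at h1
  rw [h1]
  exact pol_trace_succ _

/-- The column of `x` is the row of `y`. -/
def Link (x y : MU n) : Prop := ∃ i, x.col = some i ∧ y.row = some i

theorem MU.tr_link (x : MU n) [Decidable (Link x x)] : MU.tr x = if Link x x then 1 else 0 := by
  cases x with
  | zero =>
    rw [if_neg]
    · exact Matrix.trace_zero _ _
    · rintro ⟨i, hi, -⟩
      cases hi
  | unit i j =>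
    by_cases h : i = j
    · subst h
      rw [if_pos ⟨i, rfl, rfl⟩]
      exact Matrix.trace_single_eq_same _ _
    · rw [if_neg]
      · exact Matrix.trace_single_eq_of_ne _ _ _ h
      · rintro ⟨k, hk, hk'⟩
        have h1 : j = k := Option.some.inj hk
        have h2 : i = k := Option.some.inj hk'
        exact h (h2.trans h1.symm)

theorem link_mul {x y : MU n} (h : Link x y) : (x * y).row = x.row ∧ (x * y).col = y.col := by
  obtain ⟨i, hi, hi'⟩ := h
  cases x with
  | zero => cases hi
  | unit a b =>
    cases y with
    | zero => cases hi'
    | unit c d =>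
      have h1 : b = i := Option.some.inj hi
      have h2 : c = i := Option.some.inj hi'
      rw [MU.unit_mul, if_pos (h1.trans h2.symm)]
      exact ⟨rfl, rfl⟩

theorem link_of_col {x y : MU n} {i : Fin n} (h : (x * y).col = some i) : Link x y := by
  cases x with
  | zero => cases h
  | unit a b =>
    cases y with
    | zero => cases h
    | unit c d =>
      rw [MU.unit_mul] at h
      by_cases hbc : b = c
      · exact ⟨b, rfl, by rw [hbc]; rfl⟩
      · rw [if_neg hbc] at h
        cases h

theorem link_congr {x x' y y' : MU n} (hx : x.col = x'.col) (hy : y.row = y'.row)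
    (h : Link x y) : Link x' y' := by
  obtain ⟨i, h1, h2⟩ := h
  exact ⟨i, by rw [← hx, h1], by rw [← hy, h2]⟩

variable {α : Type} [DecidableEq α]

open Classical in
theorem cyc_link (l : List α) (hl : l.Nodup) (σ : Perm α) (hσ : Fixes l σ) (g : α → MU n) :
    cyc MU.tr l σ g = if ∀ b ∈ l, Link (g b) (g (σ b)) then 1 else 0 := by
  induction l generalizing σ g with
  | nil =>
    rw [if_pos (by simp), cyc]
  | cons a l ih =>
    obtain ⟨hal, hl'⟩ := List.nodup_cons.1 hl
    by_cases ha : σ a = a
    · rw [cyc_fix _ _ _ ha, ih hl' σ (hσ.of_cons ha), MU.tr_link]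
      by_cases h1 : Link (g a) (g a)
      · rw [if_pos h1, one_mul]
        congr 1
        simp only [List.mem_cons, forall_eq_or_imp, ha, h1, true_and]
      · rw [if_neg h1, zero_mul, if_neg]
        intro h2
        have h3 := h2 a (by simp)
        rw [ha] at h3
        exact h1 h3
    · have hq := hσ.inv_mem ha
      obtain ⟨q, hqdef⟩ : ∃ q, q = σ.symm a := ⟨_, rfl⟩
      rw [← hqdef] at hq
      have hσq : σ q = a := by rw [hqdef, Equiv.apply_symm_apply]
      have hqa : q ≠ a := fun h => hal (h ▸ hq)
      rw [cyc_move _ _ _ ha, ← hqdef, ih hl' _ hσ.peel]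
      have e1 : ∀ b ∈ l, b ≠ q → (swap a (σ a) * σ) b = σ b := by
        intro b hb hbq
        have h1 : b ≠ a := fun h => hal (h ▸ hb)
        rw [mul_apply]
        refine swap_apply_of_ne_of_ne ?_ ?_
        · intro h
          rw [← hσq] at h
          exact hbq (σ.injective h)
        · intro h
          exact h1 (σ.injective h)
      have e2 : (swap a (σ a) * σ) q = σ a := by
        rw [mul_apply, hσq, swap_apply_left]
      -- rows of the new function, if the link exists
      have hrow : Link (g q) (g a) → ∀ b, (Function.update g q (g q * g a) b).row = (g b).row := by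
        intro h b
        by_cases hb : b = q
        · rw [hb, Function.update_self, (link_mul h).1]
        · rw [Function.update_of_ne hb]
      congr 1
      refine propext ⟨fun h => ?_, fun h b hb => ?_⟩
      · have h1 := h q hq
        rw [e2, Function.update_self] at h1
        have h2 : Link (g q) (g a) := by
          obtain ⟨i, hi, -⟩ := h1
          exact link_of_col hi
        have h3 := hrow h2
        intro b hb
        rw [List.mem_cons] at hb
        rcases hb with rfl | hb
        · exact link_congr (link_mul h2).2 (h3 _) h1
        · by_cases hbq : b = q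
          · rw [hbq, hσq]
            exact h2
          · have h4 := h b hb
            rw [e1 b hb hbq, Function.update_of_ne hbq] at h4
            exact link_congr rfl (h3 _) h4
      · have h2 : Link (g q) (g a) := by
          have h1 := h q (by simp [hq])
          rw [hσq] at h1
          exact h1
        have h3 := hrow h2
        by_cases hbq : b = q
        · rw [hbq, e2, Function.update_self]
          exact link_congr (link_mul h2).2.symm (h3 _).symm (h a (by simp))
        · rw [e1 b hb hbq, Function.update_of_ne hbq]
          exact link_congr rfl (h3 _).symm (h b (by simp [hb]))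

open Classical in
/-- The product over the cycles for matrix units. -/
theorem cycT_unit [Fintype α] (u v : α → Fin n) (σ : Perm α) :
    cycT MU.tr σ (fun a => MU.unit (u a) (v a)) = if ∀ a, v a = u (σ a) then 1 else 0 := by
  unfold cycT
  rw [cyc_link _ (Finset.nodup_toList _) σ (fixes_of_mem (fun x => by simp) σ)]
  congr 1
  refine propext ⟨fun h a => ?_, fun h a _ => ⟨v a, rfl, by rw [h a]; rfl⟩⟩
  obtain ⟨i, hi, hi'⟩ := h a (by simp)
  have h1 : v a = i := Option.some.inj hi
  have h2 : u (σ a) = i := Option.some.inj hi'
  rw [h1, h2]

end Pool.Agent.CycH74
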