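import Pool.Agent.W_7742n_h74.CEng

/-! # Energy: the set of the primes with a gap -/

set_option autoImplicit false

noncomputable section

open Filter Topology NumberField

namespace Pool.Agent.PsH74

open Pool.Agent.GalSide Pool.Agent.OneP74
open Pool.Agent.OneN74 (energy_gen)

variable {G : Type} [Group G] [TopologicalSpace G] [IsTopologicalGroup G] [CompactSpace G]

/-- `q` is a class function on `G / U` of mean at least `D`, the mean of `a` is at most `D`, and
`q (frob p) ≤ a p` for `p ∉ Z`, with a gap for `p ∈ E`.  Then `E` has density zero. -/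
theorem gap_density (Φ : FrobeniusData G) {a : Nat.Primes → ℝ} (ha : ∀ p, 0 ≤ a p) {D : ℝ}
    (hc : ∀ ε : ℝ, 0 < ε → LogBound (D + ε) a)
    (U : Subgroup G) [U.Normal] (hU : IsOpen (U : Set G)) [Fintype (G ⧸ U)] (q : G ⧸ U → ℝ)
    (hqc : ∀ x y, q (x * y) = q (y * x)) (hq : D * Fintype.card (G ⧸ U) ≤ ∑ x, q x)
    {δ : ℝ} (hδ : 0 < δ) {Z E : Set Nat.Primes} (hZ : HasDensity Z 0)
    (hE : ∀ p ∉ Z, p ∈ E → q (QuotientGroup.mk (Φ.frob p)) + δ ≤ a p)
    (hEc : ∀ p ∉ Z, p ∉ E → q (QuotientGroup.mk (Φ.frob p)) ≤ a p) : HasDensity E 0 := by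
  classical
  have hG0 : (0 : ℝ) < Fintype.card (G ⧸ U) := by
    exact_mod_cast Fintype.card_pos
  have hcl : ∀ x y : G ⧸ U, IsConj x y → q x = q y := by
    intro x y hxy
    obtain ⟨c, hc⟩ := isConj_iff.1 hxy
    rw [← hc, hqc (c * x) c⁻¹, ← mul_assoc, inv_mul_cancel, one_mul]
  have hmean := tendsto_mean Φ U hU q hcl
  obtain ⟨B, hB⟩ : ∃ B : ℝ, B = ∑ x, |q x| := ⟨_, rfl⟩
  have hB0 : 0 ≤ B := by
    rw [hB]
    exact Finset.sum_nonneg fun x _ => abs_nonneg _
  have hqB : ∀ x, q x ≤ B := fun x => by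
    rw [hB]
    exact (le_abs_self _).trans
      (Finset.single_le_sum (f := fun y => |q y|) (fun y _ => abs_nonneg _) (Finset.mem_univ x))
  unfold HasDensity
  refine tendsto_order.2 ⟨fun b hb => ?_, fun b hb => ?_⟩
  · filter_upwards [Chb_log.eventually_gt_atTop 0] with s hs
    exact hb.trans_le (div_nonneg (Chb_nonneg _ _) hs.le)
  · obtain ⟨ε, hε, hεb⟩ : ∃ ε : ℝ, 0 < ε ∧ (2 + (B + δ)) * ε < δ * b := by
      refine ⟨δ * b / (2 * (2 + (B + δ))), by positivity, ?_⟩
      have h2 : (2 + (B + δ)) * (δ * b / (2 * (2 + (B + δ)))) = δ * b / 2 := by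
        field_simp
      rw [h2]
      have := mul_pos hδ hb
      linarith
    have h1 : ∀ᶠ s : ℝ in 𝓝[>] 1, D - ε < (∑' p : Nat.Primes,
        q (QuotientGroup.mk (Φ.frob p)) * ((p : ℕ) : ℝ) ^ (-s)) / Real.log (1 / (s - 1)) := by
      refine (tendsto_order.1 hmean).1 _ ?_
      have h2 : D ≤ (∑ x, q x) / (Fintype.card (G ⧸ U) : ℝ) := by
        rw [le_div_iff₀ hG0]
        exact hq
      linarith
    have h3 := (tendsto_order.1 hZ).2 ε hε
    filter_upwards [h1, hc ε hε, h3, Chb_gt, Chb_log.eventually_gt_atTop 0] with s h1 h2 h3 hs hL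
    rw [div_lt_iff₀ hL] at h3 ⊢
    rw [lt_div_iff₀ hL] at h1
    have hsq := summable_frob Φ U q hs
    have h5 := (Chb_summable hs Z).hasSum.mul_left (B + δ)
    have h6 := (Chb_summable hs E).hasSum.mul_left δ
    have h7 : ∑' p : Nat.Primes, q (QuotientGroup.mk (Φ.frob p)) * ((p : ℕ) : ℝ) ^ (-s) +
        δ * primeSum E s ≤
        ∑' p : Nat.Primes, a p * ((p : ℕ) : ℝ) ^ (-s) + (B + δ) * primeSum Z s := by
      refine hasSum_le (fun p => ?_) (hsq.hasSum.add h6) (h2.1.hasSum.add h5)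
      have hw : 0 ≤ ((p : ℕ) : ℝ) ^ (-s) := Real.rpow_nonneg (Nat.cast_nonneg _) _
      have hap := mul_nonneg (ha p) hw
      by_cases hp : p ∈ Z
      · rw [Set.indicator_of_mem hp]
        have h8 := mul_le_mul_of_nonneg_right (hqB (QuotientGroup.mk (Φ.frob p))) hw
        have h9 : δ * E.indicator (fun q : Nat.Primes => ((q : ℕ) : ℝ) ^ (-s)) p ≤
            δ * ((p : ℕ) : ℝ) ^ (-s) := by
          refine mul_le_mul_of_nonneg_left ?_ hδ.le
          by_cases hpE : p ∈ E
          · rw [Set.indicator_of_mem hpE]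
          · rw [Set.indicator_of_notMem hpE]
            exact hw
        linarith
      · rw [Set.indicator_of_notMem hp, mul_zero, add_zero]
        by_cases hpE : p ∈ E
        · rw [Set.indicator_of_mem hpE, ← add_mul]
          exact mul_le_mul_of_nonneg_right (hE p hp hpE) hw
        · rw [Set.indicator_of_notMem hpE, mul_zero, add_zero]
          exact mul_le_mul_of_nonneg_right (hEc p hp hpE) hw
    have h8 := h2.2
    have h9 : (B + δ) * primeSum Z s ≤ (B + δ) * (ε * Real.log (1 / (s - 1))) :=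
      mul_le_mul_of_nonneg_left h3.le (by positivity)
    have h10 : δ * primeSum E s ≤ ((2 + (B + δ)) * ε) * Real.log (1 / (s - 1)) := by
      nlinarith
    have h11 : ((2 + (B + δ)) * ε) * Real.log (1 / (s - 1)) < (δ * b) * Real.log (1 / (s - 1)) :=
      mul_lt_mul_of_pos_right hεb hL
    have h12 : δ * primeSum E s < δ * (b * Real.log (1 / (s - 1))) := by
      rw [← mul_assoc]
      exact h10.trans_lt h11
    exact lt_of_mul_lt_mul_left h12 hδ.le

end Pool.Agent.PsH74
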