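import Pool.Agent.W_7742h_h74.HLoc
import Pool.Agent.W_7742h_h74.HLFam
import Pool.Agent.W_7742l_h74.LCpx

/-! # Complex representations attached to a system; families (compare `W_7742l_h74/LCpx.lean`) -/

set_option autoImplicit false

noncomputable section

open Filter Topology

namespace Pool.Agent.PsC74

open NumberField Polynomial
open Pool.Agent.OneM74 Pool.Agent.GalSide Pool.Agent.OneP74 Pool.Agent.OneI74 Pool.Agent.OneN74
open Pool.Agent.GL74 Pool.Agent.GLForm74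
open Pool.Agent.Crit74 (dens_mono dens_union dens_level map_trace' cusp_logBound mean_mono)
open Pool.Agent.Cheb
open Pool.Agent.OneU74 (realize UpLE_union ind_mul)
open Pool.Agent.OneL74 (HB)
open Pool.Agent.PsL74 (Near fam_l EE)

variable {n N : ℕ}

/-- There is an irreducible complex representation with the given traces. -/
def HasC (n : ℕ) (F : Nat.Primes → GQ) (U : Nat.Primes → Set GQ) (V : Set GQ) (z : GQ → ℂ) : Prop :=
  ∃ R : GQ →* GL (Fin n) ℂ,
    (∀ W : Submodule ℂ (Fin n → ℂ), (∀ g, ∀ w ∈ W, (R g).val.mulVec w ∈ W) → W = ⊥ ∨ W = ⊤) ∧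
    IsOpen (R.ker : Set GQ) ∧
    DensityZero {p : Nat.Primes | ¬ ((R (F p)).val.trace = z (F p) ∧
      ∀ g ∈ U p, (R g).val.trace = z g)} ∧
    ∀ g ∈ V, (R g).val.trace = z g

theorem motive_of_C (hn : 0 < n) {F : Nat.Primes → GQ} {U : Nat.Primes → Set GQ} {V : Set GQ}
    {z : GQ → ℂ} (h : HasC n F U V z) : HasMotive n F U V z := by
  classical
  obtain ⟨R, hi, ho, hd, hV⟩ := h
  have hfin : Finite (GQ ⧸ R.ker) := Subgroup.quotient_finite_of_isOpen R.ker ho
  have := Fintype.ofFinite (GQ ⧸ R.ker)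
  obtain ⟨ρ, hρ⟩ : ∃ ρ : GQ ⧸ R.ker →* Matrix (Fin n) (Fin n) ℂ,
      ∀ g, ρ (QuotientGroup.mk g) = (R g).val :=
    ⟨(Units.coeHom _).comp (QuotientGroup.kerLift R), fun g => rfl⟩
  obtain ⟨E, hE1, hE2, τ, R₀, hR₀, hirr⟩ := realize hn ρ (fun W hW => hi W fun g w hw => by
    rw [← hρ]
    exact hW _ w hw)
  let R' : GQ →* GL (Fin n) E := (R₀.comp (QuotientGroup.mk' R.ker)).toHomUnits
  have hR' : ∀ g, (R' g).val = R₀ (QuotientGroup.mk g) := fun g => rfl
  have hker : R.ker ≤ R'.ker := by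
    intro g hg
    refine MonoidHom.mem_ker.2 (Units.ext ?_)
    rw [hR', (QuotientGroup.eq_one_iff g).2 hg, map_one]
    rfl
  have htr : ∀ g, τ (R' g).val.trace = (R g).val.trace := by
    intro g
    rw [hR', hR₀, hρ]
  refine ⟨E, hE1, hE2, τ, R', fun τ' W hW => ?_, Subgroup.isOpen_mono hker ho, ?_, fun g hg => ?_⟩
  · refine hirr τ' W fun g w hw => ?_
    obtain ⟨g, rfl⟩ := QuotientGroup.mk_surjective g
    exact hW g w hw
  · simpa only [htr] using hd
  · rw [htr, hV g hg]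

theorem combineC {F : Nat.Primes → GQ} (hF : IsFrobeniusChoice F) {U : Nat.Primes → Set GQ}
    {V : Set GQ} {z : GQ → ℂ} (h0 : HasC n F U ∅ z) (h : ∀ g ∈ V, HasC n F U {g} z) :
    HasC n F U V z := by
  obtain ⟨R, hi, ho, hd, -⟩ := h0
  refine ⟨R, hi, ho, hd, fun g hg => ?_⟩
  obtain ⟨R', hi', ho', hd', hV'⟩ := h g hg
  have hc := hV' g rfl
  have hZ := Pool.Agent.OneP74.density_union' hd hd' (subset_refl _)
  have htr : ∀ q : Nat.Primes, q ∉ ({q : Nat.Primes | ¬ ((R (F q)).val.trace = z (F q) ∧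
      ∀ g ∈ U q, (R g).val.trace = z g)} ∪ {q : Nat.Primes | ¬ ((R' (F q)).val.trace = z (F q) ∧
      ∀ g ∈ U q, (R' g).val.trace = z g)} : Set Nat.Primes) →
      (R (F q)).val.trace = (R' (F q)).val.trace := by
    intro q hq
    rw [Set.mem_union, not_or] at hq
    exact (not_not.1 hq.1).1.trans (not_not.1 hq.2).1.symm
  have hF' : Pool.Agent.OneP74.IsFrobeniusFamily F := hF
  have h1 := (Pool.Agent.DZ74.same_charpoly hF' ho ho' hZ htr g).1
  rw [← hc, Matrix.trace_eq_neg_charpoly_nextCoeff, Matrix.trace_eq_neg_charpoly_nextCoeff, h1]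

theorem upLE_of_mean {X : Set Nat.Primes} {ε : ℝ} (h : MeanLE ε (X.indicator 1)) : UpLE X ε := by
  intro δ hδ
  filter_upwards [h δ hδ] with s hs
  have e1 : (fun p : Nat.Primes => X.indicator (1 : Nat.Primes → ℝ) p * ((p : ℕ) : ℝ) ^ (-s)) =
      X.indicator (fun q : Nat.Primes => ((q : ℕ) : ℝ) ^ (-s)) := funext fun p => ind_mul X s p
  have h2 := hs.2
  rw [e1] at h2
  exact h2

theorem near_of_attached {F : Nat.Primes → GQ} (Φ : FrobeniusData GQ) (hΦ : Φ.frob = F)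
    (hN : 0 < N) {U : Nat.Primes → Set GQ} {V : Set GQ} {z : GQ → ℂ} {T : ℕ} {ε : ℝ} {K O A : Type}
    [Field K] [NumberField K] [CommRing O] [CommRing A] {s : K →+* ℂ} {j : O →+* K} {ι : O →+* A}
    {t : GQ → A}
    (hk : ∀ x : O, x ≠ 0 → ι x = 0 → HeightGE ((T : ℝ) ^ (7 * (n + 1).factorial)) (j x))
    (h : NearlyAttached n F U V z j s T ε ι t) :
    Near Φ (fun p : Nat.Primes => if (p : ℕ) ∣ N then 0 else z (F p)) ε T
      (EE n) s j ι n t := by
  obtain ⟨h0, h1, h2, -⟩ := h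
  refine ⟨fun x hx hs => ?_, h1.pt, exists_open_GQ h0, _,
    UpLE_union (upLE_of_mean h2) (dens_level hN) subset_rfl, fun p hp => ?_⟩
  · by_contra h0
    exact absurd (hk x h0 hx) (not_le.2 hs)
  · rw [Set.mem_union, not_or] at hp
    obtain ⟨c, hc1, hc2, hc3⟩ := (not_not.1 hp.1).1
    have hpN : ¬ (p : ℕ) ∣ N := hp.2
    refine ⟨c, ?_, ?_, ?_⟩
    · dsimp only
      rw [if_neg hpN]
      exact hc1
    · unfold Pool.Agent.OneL74.HB
      rw [pow_one]
      exact hc2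
    · rw [hΦ]
      exact hc3

theorem C_of_near (hn : 2 ≤ n) (hN : 0 < N) {P : ℕ → ℂ[X]}
    (hc : IsCuspidalSystem N P n) {F : Nat.Primes → GQ} (hF : IsFrobeniusChoice F)
    {U : Nat.Primes → Set GQ} {V : Set GQ} {z : GQ → ℂ}
    (hP : ∀ p : Nat.Primes, ¬ (p : ℕ) ∣ N → z (F p) = -(P p).coeff (n - 1))
    (h : AttachedNear n F U V z) : HasC n F U V z := by
  classical
  have hn0 : 0 < n := by omega
  have hF' : Pool.Agent.OneP74.IsFrobeniusFamily F := hF
  choose 𝔓 h𝔓 hp𝔓 hFr using hF'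
  obtain ⟨Φ, hΦ⟩ : ∃ Φ : FrobeniusData GQ, Φ.frob = F := ⟨frobeniusData 𝔓 h𝔓 hp𝔓 F hFr, rfl⟩
  obtain ⟨y, hydef⟩ : ∃ y : Nat.Primes → ℂ,
    y = fun p : Nat.Primes => if (p : ℕ) ∣ N then 0 else z (F p) := ⟨_, rfl⟩
  have hy : ∀ ε : ℝ, 0 < ε → LogBound (1 + ε) (fun p => ‖y p‖ ^ 2) := by
    intro ε hε
    have h1 := cusp_logBound hn hN hc ε hε
    have e1 : (fun p : Nat.Primes => ‖y p‖ ^ 2) = fun p : Nat.Primes =>
        if (p : ℕ) ∣ N then 0 else ‖(P p).coeff (n - 1)‖ ^ 2 := by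
      funext p
      rw [hydef]
      dsimp only
      split_ifs with hpN
      · rw [norm_zero, zero_pow two_ne_zero]
      · rw [hP p hpN, norm_neg]
    rw [e1]
    exact h1
  obtain ⟨W, hW, R, k1, k2, k3, ε₀, hε₀, hloc⟩ := fam_l Φ hy hn (fun ε hε => by
    obtain ⟨T, hT, K, O, A, i1, i2, i3, i4, s, j, ι, t, -, hk, hr⟩ := h ε hε
    refine ⟨T, hT, K, O, A, i1, i2, i3, i4, s, j, ι, t, ?_⟩
    rw [hydef]
    exact near_of_attached Φ hΦ hN hk hr)
  have hfin : Finite (GQ ⧸ W) := Subgroup.quotient_finite_of_isOpen W k1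
  let R' : GQ →* GL (Fin n) ℂ := (R.comp (QuotientGroup.mk' W)).toHomUnits
  have hR' : ∀ g, (R' g).val = R (QuotientGroup.mk g) := fun g => rfl
  refine ⟨R', fun W' hW' => ?_, ?_, ?_, fun g hgV => ?_⟩
  · refine k2 W' fun g w hw => ?_
    obtain ⟨g, rfl⟩ := QuotientGroup.mk_surjective g
    exact hW' g w hw
  · refine Subgroup.isOpen_mono (H₁ := W) (fun g hg => MonoidHom.mem_ker.2 (Units.ext ?_)) k1
    rw [hR', (QuotientGroup.eq_one_iff g).2 hg, map_one]
    rfl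
  · -- the exceptional set has upper density at most `ε` for all small `ε`
    refine density_of_upLE fun ε hε => ?_
    obtain ⟨T, hT, K, O, A, _, _, _, _, s, j, ι, t, -, hk, hr⟩ :=
      h (min ε ε₀) (lt_min hε hε₀)
    have hr₀ : NearlyAttached n F U V z j s T ε₀ ι t :=
      ⟨hr.1, hr.2.1, mean_mono (min_le_right _ _) hr.2.2.1, hr.2.2.2⟩
    have l2 := hloc T hT s j ι t (by
      rw [hydef]
      exact near_of_attached Φ hΦ hN hk hr₀)
    have l3 : ∀ g, IsLiftOf j s T ι (z g) (t g) → (R' g).val.trace = z g := by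
      intro g hg
      obtain ⟨c, hc1, hc2, hc3⟩ := hg
      rw [hR', l2 g c hc3.symm (by
        unfold Pool.Agent.OneL74.HB
        rw [pow_one]
        exact hc2)]
      exact hc1
    refine (Pool.Agent.OneU74.UpLE_mono (upLE_of_mean hr.2.2.1) ?_).mono (min_le_left _ _)
    intro p hp hcon
    exact hp ⟨l3 _ hcon.1, fun g hg => l3 _ (hcon.2 g hg)⟩
  -- the local condition
  obtain ⟨T, hT, K, O, A, _, _, _, _, s, j, ι, t, -, hk, hr⟩ := h ε₀ hε₀
  have l2 := hloc T hT s j ι t (by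
    rw [hydef]
    exact near_of_attached Φ hΦ hN hk hr)
  obtain ⟨c, hc1, hc2, hc3⟩ := hr.2.2.2 g hgV
  rw [hR', l2 g c hc3.symm (by
    unfold Pool.Agent.OneL74.HB
    rw [pow_one]
    exact hc2)]
  exact hc1

end Pool.Agent.PsC74
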