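import Pool.Agent.W_7742h_h74.HJSet

/-! # First properties of `b` (compare `W_7742j_h74/JBda.lean`) -/

set_option autoImplicit false

noncomputable section

namespace Pool.Agent.PsJ74

open NumberField Pool.Agent.OneI74 Pool.Agent.PsH74
open Pool.Agent.OneJ74 (Q h₁ h₂ YY ZZ S mat Q_nonneg Q_natCast ine_5 eq_of_Q support sup_bound)

variable {K A Γ : Type} [Field K] [NumberField K] [CommRing A] [Group Γ] [Fintype Γ] {n : ℕ}
  {ι : 𝓞 K →+* A} {t : Γ → A} {f : Γ → 𝓞 K} {ρ : ℕ} {k x : Fin ρ → Γ}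
  {b : Γ → K}

/-- The factorization of `σ ∘ b`. -/
theorem BDat.fac_map (H : BDat ι n t f ρ k x b) (σ : K →+* ℂ) (u v : Γ) :
    σ (b (u * v)) = ∑ i, (∑ j, σ (b (u * x j)) * σ ((mat f k x)⁻¹ j i)) * σ (b (k i * v)) := by
  rw [H.hfac u v, map_sum]
  refine Finset.sum_congr rfl fun i _ => ?_
  rw [map_sum, Finset.sum_mul]
  refine Finset.sum_congr rfl fun j _ => ?_
  rw [map_mul, map_mul]

theorem BDat.rho_lt (H : BDat ι n t f ρ k x b) : 2 * ρ < h₁ n := by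
  have h1 := H.hρ
  unfold h₁
  have h2 : 2 * ρ ≤ 2 * n ^ 2 := Nat.mul_le_mul_left 2 h1
  have h3 : 2 * n ^ 2 * 1 ≤ 2 * n ^ 2 * (n ^ 2 + 1) := Nat.mul_le_mul_left _ (by omega)
  omega

theorem BDat.comm (H : BDat ι n t f ρ k x b) (u v : Γ) : b (u * v) = b (v * u) := by
  classical
  by_contra hne
  obtain ⟨σ⟩ : Nonempty (K →+* ℂ) := inferInstance
  have hg : σ (b (u * v) - b (v * u)) ≠ 0 := by
    intro h0
    exact hne (sub_eq_zero.1 ((map_eq_zero σ).1 h0))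
  have hfac : ∀ u' v' : Γ, σ (b (u' * v' * v) - b (v * (u' * v'))) = ∑ i : Fin (ρ + ρ),
      (Fin.append (fun (i : Fin ρ) (w : Γ) => ∑ j, σ (b (w * x j)) * σ ((mat f k x)⁻¹ j i))
        (fun (i : Fin ρ) (w : Γ) => ∑ j, σ (b (v * w * x j)) * σ ((mat f k x)⁻¹ j i)) i) u' *
      (Fin.append (fun (i : Fin ρ) (w : Γ) => σ (b (k i * (w * v))))
        (fun (i : Fin ρ) (w : Γ) => - σ (b (k i * w))) i) v' := by
    intro u' v'
    rw [Fin.sum_univ_add]
    simp only [Fin.append_left, Fin.append_right]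
    rw [map_sub, mul_assoc u' v' v, H.fac_map σ u' (v' * v), ← mul_assoc v u' v',
      H.fac_map σ (v * u') v', sub_eq_add_neg, ← Finset.sum_neg_distrib]
    congr 1
    refine Finset.sum_congr rfl fun i _ => ?_
    rw [mul_neg]
  have h1 := support (fun w => σ (b (w * v) - b (v * w))) _ _ hfac (g := u) hg
  have h2 : Nat.card {w : Γ // σ (b (w * v) - b (v * w)) ≠ 0} ≤
      Nat.card {w : Γ // w ∉ S f (h₁ n)} := by
    refine Nat.card_le_card_of_injective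
      (fun w => (⟨w.1 * v, fun hS => w.2 ?_⟩ : {w : Γ // w ∉ S f (h₁ n)})) ?_
    · have hS' : v * w.1 ∈ S f (h₁ n) := by
        change Q (f (v * w.1) : K) ≤ _
        rw [← H.set1.hcomm w.1 v]
        exact hS
      rw [H.hb _ hS, H.hb _ hS', H.set1.hcomm w.1 v, sub_self, map_zero]
    · intro w w' hww
      have h3 : w.1 * v = w'.1 * v := congrArg Subtype.val hww
      exact Subtype.ext (mul_right_cancel h3)
  have h3 := H.set1.card_compl (h₁ n)
  have h4 := H.rho_lt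
  have h5 : 0 < Nat.card Γ := Nat.card_pos
  have h6 : Nat.card Γ ≤ (ρ + ρ) * Nat.card {w : Γ // w ∉ S f (h₁ n)} :=
    h1.trans (Nat.mul_le_mul_left _ h2)
  have h7 : 0 < Nat.card {w : Γ // w ∉ S f (h₁ n)} := by
    rcases Nat.eq_zero_or_pos (Nat.card {w : Γ // w ∉ S f (h₁ n)}) with h0 | h0
    · rw [h0, mul_zero] at h6
      omega
    · exact h0
  have h8 : (ρ + ρ) * Nat.card {w : Γ // w ∉ S f (h₁ n)} <
      h₁ n * Nat.card {w : Γ // w ∉ S f (h₁ n)} :=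
    Nat.mul_lt_mul_of_pos_right (by omega) h7
  omega

theorem BDat.sup (H : BDat ι n t f ρ k x b) (σ : K →+* ℂ) (g : Γ) :
    ‖σ (b g)‖ ^ 2 * Fintype.card Γ ≤ ρ * ∑ y, ‖σ (b y)‖ ^ 2 :=
  sup_bound (fun w => σ (b w)) _ _ (fun u v => H.fac_map σ u v) g

theorem BDat.Q_le (H : BDat ι n t f ρ k x b) (g : Γ) :
    Q (b g) * Fintype.card Γ ≤ ρ * ∑ y, Q (b y) := by
  unfold Q
  rw [Finset.sum_comm, Finset.sum_mul, Finset.mul_sum]
  exact Finset.sum_le_sum fun σ _ => H.sup σ g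

theorem BDat.total (H : BDat ι n t f ρ k x b) :
    ∑ y, Q (b y) ≤ Module.finrank ℚ K * Fintype.card Γ := by
  classical
  have hd : (0 : ℝ) < Module.finrank ℚ K := Nat.cast_pos.2 Module.finrank_pos
  have hN : (0 : ℝ) < Fintype.card Γ := Nat.cast_pos.2 Fintype.card_pos
  have hen := H.set1.energy_le (h₁ n)
  have hcc : ((h₁ n : ℕ) : ℝ) * (Nat.card {x // x ∉ S f (h₁ n)} : ℝ) ≤ Fintype.card Γ := by
    have h1 := H.set1.card_compl (h₁ n)
    rw [Nat.card_eq_fintype_card (α := Γ)] at h1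
    exact_mod_cast h1
  have hsplit : ∑ y, Q (b y) = ∑ y, (if y ∈ S f (h₁ n) then Q (f y : K) else 0) +
      ∑ y, (if y ∈ S f (h₁ n) then 0 else Q (b y)) := by
    rw [← Finset.sum_add_distrib]
    refine Finset.sum_congr rfl fun y _ => ?_
    by_cases hy : y ∈ S f (h₁ n)
    · rw [if_pos hy, if_pos hy, add_zero, H.hb y hy]
    · rw [if_neg hy, if_neg hy, zero_add]
  have hout : (∑ y, (if y ∈ S f (h₁ n) then 0 else Q (b y))) * Fintype.card Γ ≤
      (Nat.card {x // x ∉ S f (h₁ n)} : ℝ) * (ρ * ∑ y, Q (b y)) := by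
    have h1 : (Nat.card {x // x ∉ S f (h₁ n)} : ℝ) * (ρ * ∑ y, Q (b y)) =
        ∑ y, (if y ∈ S f (h₁ n) then 0 else ρ * ∑ y, Q (b y)) := by
      have h2 : ∀ y, (if y ∈ S f (h₁ n) then (0 : ℝ) else ρ * ∑ y, Q (b y)) =
          if y ∉ S f (h₁ n) then ρ * ∑ y, Q (b y) else 0 := fun y => by
        by_cases hy : y ∈ S f (h₁ n)
        · rw [if_pos hy, if_neg (not_not.2 hy)]
        · rw [if_neg hy, if_pos hy]
      simp only [h2]
      rw [← Finset.sum_filter, Finset.sum_const, nsmul_eq_mul, Nat.card_eq_fintype_card,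
        Fintype.card_subtype]
    rw [h1, Finset.sum_mul]
    refine Finset.sum_le_sum fun y _ => ?_
    by_cases hy : y ∈ S f (h₁ n)
    · rw [if_pos hy, if_pos hy, zero_mul]
    · rw [if_neg hy, if_neg hy]
      exact H.Q_le y
  have hlt : (ρ : ℝ) + 1 ≤ ((h₁ n : ℕ) : ℝ) := by
    have h1 := H.rho_lt
    exact_mod_cast (by omega : ρ + 1 ≤ h₁ n)
  have hm0 : (0 : ℝ) ≤ (Nat.card {x // x ∉ S f (h₁ n)} : ℝ) := Nat.cast_nonneg _
  generalize (Nat.card {x // x ∉ S f (h₁ n)} : ℝ) = m at hen hcc hout hm0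
  generalize ((h₁ n : ℕ) : ℝ) = h at hen hcc hlt
  generalize ∑ y, (if y ∈ S f (h₁ n) then Q (f y : K) else 0) = A at hen hsplit
  generalize ∑ y, (if y ∈ S f (h₁ n) then 0 else Q (b y)) = B at hout hsplit
  generalize ∑ y, Q (b y) = E at hsplit hout ⊢
  generalize (Fintype.card Γ : ℝ) = N at *
  generalize (Module.finrank ℚ K : ℝ) = d at *
  by_contra hcon
  have hE : d * N < E := not_le.1 hcon
  have h1 : E * N ≤ (d * N - d * h * m) * N + m * (ρ * E) := by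
    have h2 : A * N ≤ (d * N - d * h * m) * N := mul_le_mul_of_nonneg_right (by linarith) hN.le
    rw [hsplit, add_mul]
    rw [hsplit] at hout
    linarith
  have h3 : E * (N - ρ * m) ≤ d * N * (N - h * m) := by nlinarith
  have h4 : 0 < N - ρ * m := by
    rcases hm0.eq_or_lt with h0 | h0
    · rw [← h0]
      linarith
    · nlinarith
  have h5 : d * N * (N - h * m) ≤ d * N * (N - ρ * m) :=
    mul_le_mul_of_nonneg_left (by nlinarith) (mul_pos hd hN).le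
  have h6 : d * N * (N - ρ * m) < E * (N - ρ * m) := mul_lt_mul_of_pos_right hE h4
  linarith

theorem BDat.f_one (H : BDat ι n t f ρ k x b) : f 1 = n ∧ (1 : Γ) ∈ S f (h₁ n) := by
  have hd : (0 : ℝ) < Module.finrank ℚ K := Nat.cast_pos.2 Module.finrank_pos
  have htr : ι (n : 𝓞 K) = t 1 := by
    rw [map_natCast, H.set1.pt.one]
  have hQn : Q ((n : 𝓞 K) : K) = Module.finrank ℚ K * (n : ℝ) ^ 2 := by
    have h1 : ((n : 𝓞 K) : K) = (n : K) := map_natCast (algebraMap (𝓞 K) K) n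
    rw [h1, Q_natCast]
  have hle : Q (f 1 : K) ≤ Module.finrank ℚ K * (n : ℝ) ^ 2 := by
    rw [← hQn]
    exact H.set1.hmin 1 n htr
  have h5 : (4 : ℝ) * (n : ℝ) ^ 2 < (YY n : ℝ) ^ 2 := by
    have h6 := ine_5 H.set1.hn
    exact_mod_cast h6
  refine ⟨eq_of_Q (RingHom.ker ι) H.set1.hN (y := (n : 𝓞 K)) ?_ ?_, ?_⟩
  · rw [RingHom.mem_ker, map_sub, H.set1.hf, htr, sub_self]
  · rw [hQn]
    nlinarith
  · change Q (f 1 : K) ≤ Module.finrank ℚ K * ((h₁ n : ℕ) : ℝ)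
    refine hle.trans (mul_le_mul_of_nonneg_left ?_ hd.le)
    have h7 : n ^ 2 ≤ h₁ n := by
      unfold h₁
      have h3 : 2 * n ^ 2 * 1 ≤ 2 * n ^ 2 * (n ^ 2 + 1) := Nat.mul_le_mul_left _ (by omega)
      omega
    exact_mod_cast h7

theorem BDat.b_one (H : BDat ι n t f ρ k x b) : b 1 = n := by
  rw [H.hb 1 H.f_one.2, H.f_one.1]
  exact map_natCast (algebraMap (𝓞 K) K) n

theorem BDat.rank_eq (H : BDat ι n t f ρ k x b) : ρ = n ^ 2 := by
  have hd : (0 : ℝ) < Module.finrank ℚ K := Nat.cast_pos.2 Module.finrank_pos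
  have hN : (0 : ℝ) < Fintype.card Γ := Nat.cast_pos.2 Fintype.card_pos
  refine le_antisymm H.hρ ?_
  have h1 := H.Q_le 1
  rw [H.b_one, Q_natCast] at h1
  have h2 : (ρ : ℝ) * ∑ y, Q (b y) ≤ ρ * (Module.finrank ℚ K * Fintype.card Γ) :=
    mul_le_mul_of_nonneg_left H.total (Nat.cast_nonneg _)
  have h3 : ((n : ℝ) ^ 2) * (Module.finrank ℚ K * Fintype.card Γ) ≤
      ρ * (Module.finrank ℚ K * Fintype.card Γ) := by linarith
  have h4 := le_of_mul_le_mul_right h3 (mul_pos hd hN)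
  exact_mod_cast h4

end Pool.Agent.PsJ74
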