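import Pool.Agent.W_7742h_h74.HPsc
import Pool.Agent.W_7742j_h74.JFin

/-! # Definitions: pseudo-characters of a finite group and small lifts (compare `W_7742j_h74/JDef.lean`) -/

set_option autoImplicit false

noncomputable section

namespace Pool.Agent.PsJ74

open NumberField Pool.Agent.OneI74 Pool.Agent.PsH74
open Pool.Agent.OneJ74 (Q h₁ h₂ YY ZZ S mat)

variable {K A Γ : Type} [Field K] [NumberField K] [CommRing A] [Group Γ] {n : ℕ}

/-- `f` is a lift of `t` with values of minimal size and mean square at most one. -/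
structure Set1 [Fintype Γ] (ι : 𝓞 K →+* A) (n : ℕ) (t : Γ → A) (f : Γ → 𝓞 K) :
    Prop where
  hn : 0 < n
  pt : PT n t
  hN : YY n ^ Module.finrank ℚ K ≤ Ideal.absNorm (RingHom.ker ι)
  hf : ∀ x, ι (f x) = t x
  hmin : ∀ x c, ι c = t x → Q (f x : K) ≤ Q (c : K)
  hcomm : ∀ x y, f (x * y) = f (y * x)
  hE : ∑ x, Q (f x : K) ≤ Module.finrank ℚ K * Fintype.card Γ

/-- The extension `b` of `f` with values in `K`. -/
structure BDat [Fintype Γ] (ι : 𝓞 K →+* A) (n : ℕ) (t : Γ → A) (f : Γ → 𝓞 K)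
    (ρ : ℕ) (k x : Fin ρ → Γ) (b : Γ → K) : Prop where
  set1 : Set1 ι n t f
  hρ : ρ ≤ n ^ 2
  hkx : ∀ i j, k i * x j ∈ S f (h₁ n)
  hdet : (mat f k x).det ≠ 0
  hb : ∀ g ∈ S f (h₁ n), b g = f g
  hfac : ∀ u v, b (u * v) = ∑ i, ∑ j, b (u * x j) * ((mat f k x)⁻¹ j i) * b (k i * v)

end Pool.Agent.PsJ74
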