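import Pool.Agent.W_7742h_h74.HJPol

/-! # The finite theorem (compare `W_7742j_h74/JFin.lean`) -/

set_option autoImplicit false

noncomputable section

namespace Pool.Agent.PsJ74

open NumberField Pool.Agent.OneI74 Pool.Agent.PsH74
open Pool.Agent.OneJ74 (Q h₁ h₂ YY ZZ S mat YY_eq hadamard ine_4 eq_zero_of_prod prod_det_le)

variable {K A Γ : Type} [Field K] [NumberField K] [CommRing A] [Group Γ] [Fintype Γ] {n : ℕ}
  {ι : 𝓞 K →+* A} {t : Γ → A}

private theorem exists_min (ι : 𝓞 K →+* A) (a : A) (ha : ∃ c, ι c = a) :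
    ∃ w : 𝓞 K, ι w = a ∧ ∀ c, ι c = a → Q (w : K) ≤ Q (c : K) := by
  obtain ⟨c₀, hc₀⟩ := ha
  have hfin : ({w : 𝓞 K | ι w = a ∧ Q (w : K) ≤ Q (c₀ : K)} : Set (𝓞 K)).Finite := by
    have h1 := NumberField.Embeddings.finite_of_norm_le K ℂ (Real.sqrt (Q (c₀ : K)))
    refine Set.Finite.subset (h1.preimage (f := fun w : 𝓞 K => (w : K))
      (fun x _ y _ hxy => NumberField.RingOfIntegers.ext hxy)) ?_
    intro w hw
    refine ⟨NumberField.RingOfIntegers.isIntegral_coe w, fun φ => ?_⟩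
    have h2 : ‖φ (w : K)‖ ^ 2 ≤ Q (w : K) := by
      unfold Q
      exact Finset.single_le_sum (f := fun σ : K →+* ℂ => ‖σ (w : K)‖ ^ 2)
        (fun σ _ => sq_nonneg _) (Finset.mem_univ φ)
    exact Real.le_sqrt_of_sq_le (h2.trans hw.2)
  obtain ⟨w, hw, hmin⟩ := Set.exists_min_image _ (fun w : 𝓞 K => Q (w : K)) hfin
    ⟨c₀, hc₀, le_rfl⟩
  refine ⟨w, hw.1, fun c hc => ?_⟩
  by_cases h : Q (c : K) ≤ Q (c₀ : K)
  · exact hmin c ⟨hc, h⟩
  · exact hw.2.trans (le_of_lt (not_le.1 h))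

omit [Fintype Γ] in
theorem exists_lift (ι : 𝓞 K →+* A) (t : Γ → A) (ht : ∀ x y, t (x * y) = t (y * x))
    (hl : ∀ x, ∃ c, ι c = t x) :
    ∃ f : Γ → 𝓞 K, (∀ x, ι (f x) = t x) ∧
      (∀ x c, ι c = t x → Q (f x : K) ≤ Q (c : K)) ∧ ∀ x y, f (x * y) = f (y * x) := by
  classical
  choose F hF1 hF2 using fun (a : {a : A // ∃ c, ι c = a}) => exists_min ι a.1 a.2
  refine ⟨fun x => F ⟨t x, hl x⟩, fun x => hF1 _, fun x c hc => hF2 _ c hc, fun x y => ?_⟩
  have h : (⟨t (x * y), hl (x * y)⟩ : {a : A // ∃ c, ι c = a}) =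
      ⟨t (y * x), hl (y * x)⟩ := Subtype.ext (ht x y)
  simp only [h]

theorem Set1.finite_main {f : Γ → 𝓞 K} (H : Set1 ι n t f) :
    ∃ (𝔟 : Ideal (𝓞 K)) (β : Γ → 𝓞 K), RingHom.ker ι ≤ 𝔟 ∧
      Ideal.absNorm (RingHom.ker ι) ≤
        (n ^ (2 * n ^ 2)) ^ Module.finrank ℚ K * Ideal.absNorm 𝔟 ∧
      ZZ n ^ Module.finrank ℚ K ≤ Ideal.absNorm 𝔟 ∧
      (∀ g c, ι c = t g → c - β g ∈ 𝔟) ∧
      (∀ u v, β (u * v) = β (v * u)) ∧
      (∀ s : K →+* ℂ, ∃ R : Γ →* Matrix (Fin n) (Fin n) ℂ, ∀ g, (R g).trace = s (β g : K)) := by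
  classical
  obtain ⟨ρ, k, x, b, H'⟩ := H.exists_bdat
  obtain rfl := H'.rank_eq
  set D := Module.finrank ℚ K with hD
  have hDpos : 0 < D := Module.finrank_pos
  have hn0 : 0 < n := H.hn
  have hYpos : 0 < YY n := by
    unfold YY
    exact pow_pos (by omega) _
  have hNpos : 0 < Ideal.absNorm (RingHom.ker ι) :=
    lt_of_lt_of_le (pow_pos hYpos _) H.hN
  -- representations
  have hrep : ∀ s : K →+* ℂ, ∃ R : Γ →* Matrix (Fin n) (Fin n) ℂ, ∀ g, (R g).trace = s (b g) := by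
    intro s
    refine exists_rep (fun g => s (b g)) (fun u v => by rw [H'.comm]) ?_ ?_
    · show s (b 1) = n
      rw [H'.b_one, map_natCast]
    · intro y
      have h1 := pol_map s b (n + 1) y
      rw [H'.pol_all y, map_zero] at h1
      exact h1.symm
  have hcard : 0 < Fintype.card Γ := Fintype.card_pos
  have hfinord : ∀ (R : Γ →* Matrix (Fin n) (Fin n) ℂ) (g : Γ), R g ^ Fintype.card Γ = 1 := by
    intro R g
    rw [← map_pow, pow_card_eq_one, map_one]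
  have hbnorm : ∀ (s : K →+* ℂ) (g : Γ), ‖s (b g)‖ ≤ n := by
    intro s g
    obtain ⟨R, hR⟩ := hrep s
    rw [← hR g]
    exact norm_trace_le hcard (R g) (hfinord R g)
  have hbint : ∀ g, IsIntegral ℤ (b g) := by
    intro g
    obtain ⟨s⟩ : Nonempty (K →+* ℂ) := inferInstance
    obtain ⟨R, hR⟩ := hrep s
    obtain ⟨a, ha⟩ := OneP74.exists_exponents hcard (R g) (hfinord R g) _
      (Complex.isPrimitiveRoot_exp (Fintype.card Γ) hcard.ne')
    have hz := Complex.isPrimitiveRoot_exp (Fintype.card Γ) hcard.ne'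
    have h1 : IsIntegral ℤ ((R g).trace) := by
      have h2 := ha 1
      rw [pow_one] at h2
      rw [h2]
      exact IsIntegral.sum _ fun i _ => (hz.isIntegral hcard).pow _
    rw [hR g] at h1
    exact (isIntegral_algHom_iff s.toIntAlgHom s.injective).1 h1
  have hβ : ∀ g, ∃ w : 𝓞 K, (w : K) = b g := fun g => ⟨⟨b g, hbint g⟩, rfl⟩
  choose β hβ' using hβ
  -- the minor
  set G₀ : 𝓞 K := (Matrix.of fun i j => f (k i * x j)).det with hG₀
  have hG₀K : (G₀ : K) = (mat f k x).det := by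
    have h1 := RingHom.map_det (algebraMap (𝓞 K) K) (Matrix.of fun i j => f (k i * x j))
    rw [hG₀]
    refine h1.trans ?_
    rfl
  have hG₀ne : G₀ ≠ 0 := by
    intro h
    apply H'.hdet
    rw [← hG₀K, h]
    simp
  set 𝔟 : Ideal (𝓞 K) := Submodule.comap (LinearMap.lsmul (𝓞 K) (𝓞 K) G₀) (RingHom.ker ι) with h𝔟
  have hmem : ∀ z, z ∈ 𝔟 ↔ G₀ * z ∈ RingHom.ker ι := fun z => Iff.rfl
  have hle : RingHom.ker ι ≤ 𝔟 := fun z hz => (hmem z).2 (Ideal.mul_mem_left _ _ hz)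
  have hbpos : 0 < Ideal.absNorm 𝔟 :=
    Nat.pos_of_dvd_of_pos (Ideal.absNorm_dvd_absNorm_of_le hle) hNpos
  have hcor : ∀ g c, ι c = t g → c - β g ∈ 𝔟 := by
    intro g c hc
    obtain ⟨z, hz, hz2⟩ := H'.cor g c hc
    rw [hmem]
    have h1 : G₀ * (c - β g) = z := by
      apply NumberField.RingOfIntegers.ext
      rw [hz2, ← hG₀K, ← hβ' g]
      exact (map_mul (algebraMap (𝓞 K) K) G₀ (c - β g)).trans
        (congrArg (fun t => (G₀ : K) * t) (map_sub (algebraMap (𝓞 K) K) c (β g)))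
    rw [h1]
    exact hz
  -- norm of the minor
  have hdetnorm : ∀ s : K →+* ℂ, ‖s (G₀ : K)‖ ≤ (n : ℝ) ^ (2 * n ^ 2) := by
    intro s
    have h1 : s (G₀ : K) = (Matrix.of fun i j => s (b (k i * x j)) :
        Matrix (Fin (n ^ 2)) (Fin (n ^ 2)) ℂ).det := by
      rw [hG₀K, RingHom.map_det]
      congr 1
      ext i j
      show s (f (k i * x j) : K) = s (b (k i * x j))
      rw [H'.hb _ (H'.hkx i j)]
    have h2 := hadamard (Matrix.of fun i j => s (b (k i * x j)) :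
        Matrix (Fin (n ^ 2)) (Fin (n ^ 2)) ℂ)
    have h3 : ∏ i : Fin (n ^ 2), ∑ j : Fin (n ^ 2),
        ‖(Matrix.of fun i j => s (b (k i * x j)) :
        Matrix (Fin (n ^ 2)) (Fin (n ^ 2)) ℂ) i j‖ ^ 2 ≤ ∏ _i : Fin (n ^ 2), (n : ℝ) ^ 4 := by
      refine Finset.prod_le_prod (fun i _ => Finset.sum_nonneg fun j _ => sq_nonneg _) fun i _ => ?_
      calc ∑ j : Fin (n ^ 2), ‖(Matrix.of fun i j => s (b (k i * x j)) :
            Matrix (Fin (n ^ 2)) (Fin (n ^ 2)) ℂ) i j‖ ^ 2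
          ≤ ∑ _j : Fin (n ^ 2), (n : ℝ) ^ 2 := by
            refine Finset.sum_le_sum fun j _ => ?_
            exact pow_le_pow_left₀ (norm_nonneg _) (hbnorm s _) 2
        _ = (n : ℝ) ^ 4 := by
            rw [Finset.sum_const, Finset.card_univ, Fintype.card_fin, nsmul_eq_mul]
            push_cast
            ring
    rw [Finset.prod_const, Finset.card_univ, Fintype.card_fin] at h3
    rw [← h1] at h2
    have h4 : ‖s (G₀ : K)‖ ^ 2 ≤ ((n : ℝ) ^ (2 * n ^ 2)) ^ 2 := by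
      refine (h2.trans h3).trans (le_of_eq ?_)
      rw [← pow_mul, ← pow_mul]
      congr 1
      ring
    exact le_of_sq_le_sq h4 (by positivity)
  have hspan : (Ideal.absNorm (Ideal.span {G₀}) : ℝ) ≤ ((n : ℝ) ^ (2 * n ^ 2)) ^ D := by
    refine (absNorm_le_prod _ (Ideal.mem_span_singleton_self G₀) hG₀ne).trans ?_
    calc ∏ s : K →+* ℂ, ‖s (G₀ : K)‖ ≤ ∏ _s : K →+* ℂ, (n : ℝ) ^ (2 * n ^ 2) :=
          Finset.prod_le_prod (fun s _ => norm_nonneg _) fun s _ => hdetnorm s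
      _ = ((n : ℝ) ^ (2 * n ^ 2)) ^ D := by
          rw [Finset.prod_const, Finset.card_univ, NumberField.Embeddings.card K ℂ]
  have hspan' : Ideal.absNorm (Ideal.span {G₀}) ≤ (n ^ (2 * n ^ 2)) ^ D := by
    exact_mod_cast hspan
  have hspanpos : 0 < Ideal.absNorm (Ideal.span {G₀}) := by
    refine Nat.pos_of_ne_zero ?_
    rw [Ne, Ideal.absNorm_eq_zero_iff, Ideal.span_singleton_eq_bot]
    exact hG₀ne
  have hmul : Ideal.span {G₀} * 𝔟 ≤ RingHom.ker ι := by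
    rw [Ideal.span_singleton_mul_le_iff]
    exact fun z hz => (hmem z).1 hz
  have hnorm : Ideal.absNorm (RingHom.ker ι) ≤ (n ^ (2 * n ^ 2)) ^ D * Ideal.absNorm 𝔟 := by
    have h1 := Ideal.absNorm_dvd_absNorm_of_le hmul
    rw [map_mul] at h1
    have h2 := Nat.le_of_dvd (Nat.mul_pos hspanpos hbpos) h1
    exact h2.trans (Nat.mul_le_mul hspan' le_rfl)
  have hZZ : ZZ n ^ D ≤ Ideal.absNorm 𝔟 := by
    have h1 : (n ^ (2 * n ^ 2)) ^ D * ZZ n ^ D ≤ (n ^ (2 * n ^ 2)) ^ D * Ideal.absNorm 𝔟 := by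
      refine le_trans (le_of_eq ?_) (H.hN.trans hnorm)
      rw [YY_eq, mul_pow, mul_comm]
    exact Nat.le_of_mul_le_mul_left h1 (by positivity)
  refine ⟨𝔟, β, hle, hnorm, hZZ, hcor, fun u v => ?_, fun s => ?_⟩
  · apply NumberField.RingOfIntegers.ext
    rw [hβ', hβ', H'.comm]
  · obtain ⟨R, hR⟩ := hrep s
    exact ⟨R, fun g => by rw [hR g, hβ' g]⟩

end Pool.Agent.PsJ74
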