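import Pool.Agent.W_7742h_h74.HJFin
import Pool.Agent.W_7742h_h74.HAvg
import Pool.Agent.W_7742j_h74.JMai

/-! # One pseudo-character modulo one ideal (compare `W_7742j_h74/JMai.lean`) -/

set_option autoImplicit false

noncomputable section

open Filter Topology NumberField

namespace Pool.Agent.PsJ74

open Pool.Agent.GalSide Pool.Agent.OneI74 Pool.Agent.PsH74
open Pool.Agent.OneJ74 (Q h₁ h₂ YY ZZ S mat ine_6)
open Pool.Agent.OneN74 (energy_gen)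

variable {G : Type} [Group G] [TopologicalSpace G] [IsTopologicalGroup G] [CompactSpace G]

theorem main_p (Φ : FrobeniusData G) {K : Type} [Field K] [NumberField K]
    (b : Nat.Primes → 𝓞 K)
    (hRS : ∀ ε : ℝ, 0 < ε → LogBound ((Module.finrank ℚ K : ℝ) + ε)
      (fun p => ∑ σ : K →+* ℂ, ‖σ (b p : K)‖ ^ 2))
    {A : Type} [CommRing A] (ι : 𝓞 K →+* A) {n : ℕ} (hn : 0 < n)
    (hN : YY n ^ Module.finrank ℚ K ≤ Ideal.absNorm (RingHom.ker ι))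
    {t : G → A} (ht : PT n t) (U : Subgroup G) [U.Normal] (hU₀ : IsOpen (U : Set G))
    (htU : ∀ g, ∀ u ∈ U, t (g * u) = t g)
    (hZ : HasDensity {p | t (Φ.frob p) ≠ ι (b p)} 0) :
    ∃ (𝔟 : Ideal (𝓞 K)) (β : G ⧸ U → 𝓞 K),
      Ideal.absNorm (RingHom.ker ι) ≤
        (n ^ (2 * n ^ 2)) ^ Module.finrank ℚ K * Ideal.absNorm 𝔟 ∧
      (∀ g c, ι c = t g → c - β (QuotientGroup.mk g) ∈ 𝔟) ∧
      HasDensity {p | b p ≠ β (QuotientGroup.mk (Φ.frob p))} 0 ∧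
      (∀ s : K →+* ℂ, ∃ R : G ⧸ U →* Matrix (Fin n) (Fin n) ℂ,
        (∀ x, (R x).trace = s (β x : K)) ∧
        ∀ W : Submodule ℂ (Fin n → ℂ), (∀ g, ∀ w ∈ W, (R g).mulVec w ∈ W) → W = ⊥ ∨ W = ⊤) := by
  classical
  have hd : 0 < Module.finrank ℚ K := Module.finrank_pos
  have hdr : (0 : ℝ) < Module.finrank ℚ K := by exact_mod_cast hd
  have hfin : Finite (G ⧸ U) := Subgroup.quotient_finite_of_isOpen U hU₀
  let _ : Fintype (G ⧸ U) := Fintype.ofFinite _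
  have hG0 : (0 : ℝ) < Fintype.card (G ⧸ U) := by
    exact_mod_cast Fintype.card_pos
  obtain ⟨τ, hτ, hτt⟩ := ht.lift U htU
  have hTf : ∀ p ∉ {p | t (Φ.frob p) ≠ ι (b p)},
      τ (QuotientGroup.mk (Φ.frob p)) = ι (b p) := by
    intro p hp
    rw [hτt]
    by_contra h
    exact hp h
  have hTconj : ∀ x y, IsConj x y → τ x = τ y := by
    intro x y h
    obtain ⟨c, hc⟩ := isConj_iff.1 h
    rw [← hc, mul_assoc, hτ.comm, mul_assoc, inv_mul_cancel, mul_one]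
  have hl : ∀ x, ∃ c, ι c = τ x := by
    intro x
    obtain ⟨g, rfl⟩ := QuotientGroup.mk_surjective x
    obtain ⟨p, hp, hc⟩ := exists_frob Φ U hU₀ g hZ
    exact ⟨b p, by rw [← hTconj _ _ hc, hTf p hp]⟩
  obtain ⟨f, hf, hfmin, hfc⟩ := exists_lift ι τ hτ.comm hl
  have hen : ∑ x, Q (f x : K) ≤ Module.finrank ℚ K * Fintype.card (G ⧸ U) :=
    energy_gen Φ (fun p => Finset.sum_nonneg fun σ _ => sq_nonneg _) hRS U hU₀
      (fun x => Q (f x : K)) (fun x y => by simp only [hfc x y]) hZ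
      (fun p hp => hfmin _ _ (hTf p hp).symm)
  have H : Set1 ι n τ f := ⟨hn, hτ, hN, hf, hfmin, hfc, hen⟩
  obtain ⟨𝔟, β, -, hNN, hN𝔟, hc₀, hcomm, hrep⟩ := H.finite_main
  have hc : ∀ g c, ι c = t g → c - β (QuotientGroup.mk g) ∈ 𝔟 := by
    intro g c hgc
    exact hc₀ _ _ (by rw [hτt]; exact hgc)
  choose R hR using hrep
  have hnorm : ∀ (s : K →+* ℂ) (x : G ⧸ U), ‖s (β x : K)‖ ≤ n := by
    intro s x
    rw [← hR s x]
    refine norm_trace_le (m := Fintype.card (G ⧸ U)) Fintype.card_pos _ ?_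
    rw [← map_pow, pow_card_eq_one, map_one]
  have hone : ∀ s : K →+* ℂ, (Fintype.card (G ⧸ U) : ℝ) ≤ ∑ x, ‖s (β x : K)‖ ^ 2 := by
    intro s
    have h1 := Pool.Agent.OneP74.card_le_sum hn (R s)
    simp only [hR] at h1
    exact h1
  obtain ⟨Z, hZdef⟩ : ∃ Z : Set Nat.Primes, Z = {p | t (Φ.frob p) ≠ ι (b p)} := ⟨_, rfl⟩
  rw [← hZdef] at hZ hTf
  obtain ⟨E, hEdef⟩ : ∃ E : Set Nat.Primes,
    E = {p | b p - β (QuotientGroup.mk (Φ.frob p)) ≠ 0} := ⟨_, rfl⟩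
  have hn1 : (1 : ℝ) ≤ n := by exact_mod_cast hn
  have h3n : ((3 * n : ℕ) : ℝ) ^ Module.finrank ℚ K ≤ (Ideal.absNorm 𝔟 : ℝ) := by
    exact_mod_cast (Nat.pow_le_pow_left (ine_6 hn).1 _).trans hN𝔟
  have hcard : (Fintype.card (K →+* ℂ) : ℝ) = Module.finrank ℚ K := by
    rw [NumberField.Embeddings.card]
  have hqsum : (Module.finrank ℚ K : ℝ) * Fintype.card (G ⧸ U) ≤ ∑ x, Q (β x : K) := by
    unfold Pool.Agent.OneJ74.Q
    rw [Finset.sum_comm]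
    have h1 : ∑ _s : K →+* ℂ, (Fintype.card (G ⧸ U) : ℝ) ≤
        ∑ s : K →+* ℂ, ∑ x, ‖s (β x : K)‖ ^ 2 := Finset.sum_le_sum fun s _ => hone s
    rw [Finset.sum_const, Finset.card_univ, nsmul_eq_mul, hcard] at h1
    exact h1
  have hgap : ∀ p ∉ Z, p ∈ E → Q (β (QuotientGroup.mk (Φ.frob p)) : K) + 1 / 2 ≤
      ∑ σ : K →+* ℂ, ‖σ (b p : K)‖ ^ 2 := by
    intro p hpZ hpE
    rw [hEdef] at hpE
    have hmem : b p - β (QuotientGroup.mk (Φ.frob p)) ∈ 𝔟 := by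
      refine hc _ _ ?_
      rw [← hτt]
      exact (hTf p hpZ).symm
    have h4 := sum_sq_ge 𝔟 hmem hpE (Nat.cast_nonneg (3 * n)) h3n
    have h5 : (Module.finrank ℚ K : ℝ) * (4 * (n : ℝ) ^ 2 + 1) ≤
        (Module.finrank ℚ K : ℝ) * ((3 * n : ℕ) : ℝ) ^ 2 := by
      refine mul_le_mul_of_nonneg_left ?_ (Nat.cast_nonneg _)
      push_cast
      nlinarith
    have h6 : ∑ σ : K →+* ℂ, ‖σ ((b p - β (QuotientGroup.mk (Φ.frob p)) : 𝓞 K) : K)‖ ^ 2 ≤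
        ∑ σ : K →+* ℂ, (2 * ‖σ (b p : K)‖ ^ 2 +
          2 * ‖σ (β (QuotientGroup.mk (Φ.frob p)) : K)‖ ^ 2) := by
      refine Finset.sum_le_sum fun σ _ => ?_
      have e1 : σ ((b p - β (QuotientGroup.mk (Φ.frob p)) : 𝓞 K) : K) =
          σ (b p : K) - σ (β (QuotientGroup.mk (Φ.frob p)) : K) := by
        rw [← map_sub]
        rfl
      rw [e1]
      have e2 := norm_sub_le (σ (b p : K)) (σ (β (QuotientGroup.mk (Φ.frob p)) : K))
      have e3 := norm_nonneg (σ (b p : K) - σ (β (QuotientGroup.mk (Φ.frob p)) : K))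
      nlinarith [sq_nonneg (‖σ (b p : K)‖ - ‖σ (β (QuotientGroup.mk (Φ.frob p)) : K)‖)]
    rw [Finset.sum_add_distrib, ← Finset.mul_sum, ← Finset.mul_sum] at h6
    have h7 : Q (β (QuotientGroup.mk (Φ.frob p)) : K) ≤ (Module.finrank ℚ K : ℝ) * (n : ℝ) ^ 2 := by
      unfold Pool.Agent.OneJ74.Q
      have h8 : ∑ σ : K →+* ℂ, ‖σ (β (QuotientGroup.mk (Φ.frob p)) : K)‖ ^ 2 ≤
          ∑ _σ : K →+* ℂ, (n : ℝ) ^ 2 := Finset.sum_le_sum fun σ _ =>
        pow_le_pow_left₀ (norm_nonneg _) (hnorm σ _) 2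
      rw [Finset.sum_const, Finset.card_univ, nsmul_eq_mul, hcard] at h8
      exact h8
    have h9 : Q (β (QuotientGroup.mk (Φ.frob p)) : K) =
        ∑ σ : K →+* ℂ, ‖σ (β (QuotientGroup.mk (Φ.frob p)) : K)‖ ^ 2 := rfl
    have h10 : (1 : ℝ) ≤ Module.finrank ℚ K := by exact_mod_cast hd
    rw [← h9] at h6
    nlinarith
  have heq : ∀ p ∉ Z, p ∉ E → Q (β (QuotientGroup.mk (Φ.frob p)) : K) ≤
      ∑ σ : K →+* ℂ, ‖σ (b p : K)‖ ^ 2 := by
    intro p _ hpE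
    rw [hEdef] at hpE
    have h1 : b p = β (QuotientGroup.mk (Φ.frob p)) := sub_eq_zero.1 (not_not.1 hpE)
    rw [h1]
    exact le_rfl
  have hqc : ∀ x y : G ⧸ U, Q (β (x * y) : K) = Q (β (y * x) : K) := fun x y => by rw [hcomm]
  have hE0 : HasDensity E 0 := gap_density Φ
    (fun p => Finset.sum_nonneg fun σ _ => sq_nonneg _) hRS U hU₀ (fun x => Q (β x : K)) hqc
    hqsum (by norm_num : (0 : ℝ) < 1 / 2) hZ hgap heq
  have hle : ∑ x, Q (β x : K) ≤ Module.finrank ℚ K * Fintype.card (G ⧸ U) :=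
    energy_gen Φ (fun p => Finset.sum_nonneg fun σ _ => sq_nonneg _) hRS U hU₀
      (fun x => Q (β x : K)) hqc hZ (fun p hp => by
        by_cases hpE : p ∈ E
        · have := hgap p hp hpE
          linarith
        · exact heq p hp hpE)
  have hms : ∀ s : K →+* ℂ, ∑ x, ‖s (β x : K)‖ ^ 2 ≤ (Fintype.card (G ⧸ U) : ℝ) := by
    intro s
    have h1 : ∑ s : K →+* ℂ, (∑ x, ‖s (β x : K)‖ ^ 2 - (Fintype.card (G ⧸ U) : ℝ)) ≤ 0 := by
      rw [Finset.sum_sub_distrib, Finset.sum_const, Finset.card_univ, nsmul_eq_mul, hcard]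
      unfold Pool.Agent.OneJ74.Q at hle
      rw [Finset.sum_comm] at hle
      linarith
    have h2 := Finset.single_le_sum
      (f := fun s : K →+* ℂ => ∑ x, ‖s (β x : K)‖ ^ 2 - (Fintype.card (G ⧸ U) : ℝ))
      (fun s _ => sub_nonneg.2 (hone s)) (Finset.mem_univ s)
    linarith
  refine ⟨𝔟, β, hNN, hc, ?_, fun s => ⟨R s, hR s, fun W hW => ?_⟩⟩
  · have e1 : {p | b p ≠ β (QuotientGroup.mk (Φ.frob p))} = E := by
      rw [hEdef]
      ext p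
      rw [Set.mem_setOf_eq, Set.mem_setOf_eq, Ne, Ne, sub_eq_zero]
    rw [e1]
    exact hE0
  · refine eq_bot_or_eq_top (R s) ?_ W hW
    have h1 := hms s
    simp only [← hR] at h1
    exact h1

end Pool.Agent.PsJ74
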