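import Pool.Agent.W_7742h_h74.HPsc
import Pool.Agent.W_7742l_h74.LDef

/-! # Definitions: lifts of small height for most elements (compare `W_7742l_h74/LDef.lean`) -/

set_option autoImplicit false

noncomputable section

namespace Pool.Agent.PsL74

open NumberField Height Pool.Agent.OneI74 Pool.Agent.PsH74
open Pool.Agent.OneJ74 (h₁ h₂)
open Pool.Agent.OneL74 (HB qe S mat Cst)

variable {K O A Γ : Type} [Field K] [NumberField K] [CommRing O] [CommRing A] [Group Γ] {n : ℕ}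

/-- `f` is a lift of `t`, for most elements of height at most `T`, and of mean
square at most `1 + 1 / (4 n ^ 2)` at the embedding `s₀`. -/
structure Set5 [Fintype Γ] (T E : ℕ) (M : ℝ) (s₀ : K →+* ℂ) (j : O →+* K) (ι : O →+* A)
    (n : ℕ) (t : Γ → A) (f : Γ → O) : Prop where
  cst : Cst n T E M
  pt : PT n t
  hN : ∀ z : O, ι z = 0 → mulHeight₁ (j z) < ((T : ℝ) ^ E) ^ Module.finrank ℚ K → z = 0
  hf : ∀ x ∈ S j s₀ f T M, ι (f x) = t x
  hmin : ∀ x c, ι c = t x → HB T 1 (j c) → f x = c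
  hcomm : ∀ x y, f (x * y) = f (y * x)
  card1 : h₁ n * Nat.card {x // x ∉ S j s₀ f T M} ≤ Nat.card Γ
  card2 : h₂ n * Nat.card {x // x ∉ S j s₀ f T M} ≤ Nat.card Γ
  hE0 : ∀ q : Γ → ℝ, (∀ x, q x ≤ ‖s₀ (j (f x))‖ ^ 2) → (∀ x, x ∉ S j s₀ f T M → q x ≤ 0) →
    ∑ x, q x ≤ (1 + 1 / (4 * (n : ℝ) ^ 2)) * Fintype.card Γ

/-- The extension `b` of `f` with values in `K`. -/
structure BDat5 [Fintype Γ] (T E : ℕ) (M : ℝ) (s₀ : K →+* ℂ) (j : O →+* K) (ι : O →+* A)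
    (n : ℕ) (t : Γ → A) (f : Γ → O)
    (ρ : ℕ) (k x : Fin ρ → Γ) (b : Γ → K) : Prop where
  set5 : Set5 T E M s₀ j ι n t f
  hρ : ρ ≤ n ^ 2
  hkx : ∀ i l, k i * x l ∈ S j s₀ f T M
  hdet : (mat j f k x).det ≠ 0
  hb : ∀ g ∈ S j s₀ f T M, b g = j (f g)
  hfac : ∀ u v, b (u * v) = ∑ i, ∑ l, b (u * x l) * ((mat j f k x)⁻¹ l i) * b (k i * v)

/-- An element of the kernel of small height is zero. -/
theorem Set5.eq_zero [Fintype Γ] {T E : ℕ} {M : ℝ} {s₀ : K →+* ℂ} {j : O →+* K} {ι : O →+* A}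
    {t : Γ → A} {f : Γ → O} (H : Set5 T E M s₀ j ι n t f) {e : ℕ}
    (he : e < E) {z : O} (hz : ι z = 0) (h : HB T e (j z)) : z = 0 := by
  refine H.hN z hz (lt_of_le_of_lt h ?_)
  have hT : (1 : ℝ) < T := by exact_mod_cast H.cst.two_le
  exact pow_lt_pow_left₀ (pow_lt_pow_right₀ hT he) (by positivity)
    (Module.finrank_pos (R := ℚ) (M := K)).ne'

end Pool.Agent.PsL74
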