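import Pool.Agent.W_7742h_h74.HLCor
import Pool.Agent.W_7742l_h74.LPol

/-! # `b` is a pseudo-character (compare `W_7742l_h74/LPol.lean`) -/

set_option autoImplicit false

noncomputable section

namespace Pool.Agent.PsL74

open NumberField Height Pool.Agent.OneI74 Pool.Agent.PsH74
open Pool.Agent.OneJ74 (h₁ h₂ Good wd_le card_bad pol_congr support support_multi pol_slice)
open Pool.Agent.OneL74 (HB qe S mat Cst)

variable {K O A Γ : Type} [Field K] [NumberField K] [CommRing O] [CommRing A] [Group Γ]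
  [Fintype Γ] {n : ℕ} {T E : ℕ} {M : ℝ} {s₀ : K →+* ℂ} {j : O →+* K}
  {ι : O →+* A} {t : Γ → A} {f : Γ → O} {ρ : ℕ} {k x : Fin ρ → Γ}
  {b : Γ → K}

theorem BDat5.pol_good (H : BDat5 T E M s₀ j ι n t f ρ k x b) (y : Fin (n + 1) → Γ)
    (hy : Good (S j s₀ f T M) (n + 1) y) : pol b (n + 1) y = 0 := by
  classical
  set w : O := pol f (n + 1) y with hw
  have h1 : pol b (n + 1) y = j w := by
    have h2 : pol b (n + 1) y = pol (fun g => j (f g)) (n + 1) y :=
      pol_congr (fun g hg => H.hb g hg) (n + 1) y hy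
    rw [h2, ← pol_map j f (n + 1) y]
  have hker : ι w = 0 := by
    rw [hw, pol_map ι f (n + 1) y]
    have h2 : pol (fun g => ι (f g)) (n + 1) y = pol t (n + 1) y :=
      pol_congr (fun g hg => H.set5.hf g hg) (n + 1) y hy
    rw [h2]
    exact H.set5.pt.pol y
  have hpol : HB T (qe (n + 1)) (j w) := by
    rw [← h1]
    refine HB.pol H.set5.cst.two_le b (S j s₀ f T M) (fun g hg => ?_) (n + 1) H.set5.cst.hnT y hy
    rw [H.hb g hg]
    exact hg.1
  rw [h1, H.set5.eq_zero H.set5.cst.i3 hker hpol, map_zero]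

theorem BDat5.pol_all (H : BDat5 T E M s₀ j ι n t f ρ k x b) (y : Fin (n + 1) → Γ) :
    pol b (n + 1) y = 0 := by
  classical
  by_contra hne
  have hfac : ∀ φ ∈ Submodule.span K (Set.range fun w : Γ => fun y : Γ => b (w * y)),
      ∃ α : Fin ρ → Γ → K, ∀ u v, φ (u * v) = ∑ i, α i u * b (k i * v) := by
    intro φ hφ
    induction hφ using Submodule.span_induction with
    | mem φ hφ =>
      obtain ⟨w, rfl⟩ := hφ
      refine ⟨fun i u => ∑ l, b (w * u * x l) * ((mat j f k x)⁻¹ l i), fun u v => ?_⟩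
      change b (w * (u * v)) = _
      rw [← mul_assoc, H.hfac]
      refine Finset.sum_congr rfl fun i _ => ?_
      rw [Finset.sum_mul]
    | zero => exact ⟨fun _ _ => 0, fun u v => by simp⟩
    | add φ ψ _ _ h1 h2 =>
      obtain ⟨α, hα⟩ := h1
      obtain ⟨α', hα'⟩ := h2
      refine ⟨fun i u => α i u + α' i u, fun u v => ?_⟩
      rw [Pi.add_apply, hα, hα', ← Finset.sum_add_distrib]
      exact Finset.sum_congr rfl fun i _ => (add_mul _ _ _).symm
    | smul c φ _ h1 =>
      obtain ⟨α, hα⟩ := h1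
      refine ⟨fun i u => c * α i u, fun u v => ?_⟩
      rw [Pi.smul_apply, hα, smul_eq_mul, Finset.mul_sum]
      exact Finset.sum_congr rfl fun i _ => (mul_assoc _ _ _).symm
  have hsl : ∀ (i : Fin (n + 1)) (x : Fin (n + 1) → Γ) (g : Γ),
      pol b (n + 1) (Function.update x i g) ≠ 0 →
      Nat.card Γ ≤ ρ * Nat.card {y : Γ // pol b (n + 1) (Function.update x i y) ≠ 0} := by
    intro i x g hg
    obtain ⟨α, hα⟩ := hfac _ (pol_slice b H.comm (n + 1) x i)
    have h1 := support (fun y => s₀ (pol b (n + 1) (Function.update x i y)))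
      (fun i u => s₀ (α i u)) (fun i v => s₀ (b (k i * v))) (fun u v => by
        have h2 := congrArg s₀ (hα u v)
        rw [map_sum] at h2
        simpa only [map_mul] using h2) (g := g) (by
        intro h0
        exact hg ((map_eq_zero s₀).1 h0))
    refine h1.trans (Nat.mul_le_mul_left _ ?_)
    refine Nat.card_le_card_of_injective (fun z => ⟨z.1, fun h0 => z.2 (by rw [h0, map_zero])⟩) ?_
    intro z z' hz
    exact Subtype.ext (Subtype.mk.inj hz)
  have h1 := support_multi (n + 1) (pol b (n + 1)) hsl hne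
  have h2 : Nat.card {x // pol b (n + 1) x ≠ 0} ≤
      Nat.card {x : Fin (n + 1) → Γ // ¬ Good (S j s₀ f T M) (n + 1) x} := by
    refine Nat.card_le_card_of_injective (fun z => ⟨z.1, fun h0 => z.2 (H.pol_good _ h0)⟩) ?_
    intro z z' hz
    exact Subtype.ext (Subtype.mk.inj hz)
  have h3 := card_bad (S j s₀ f T M) (n + 1)
  have h4 := wd_le (n + 1)
  have h5 := H.set5.card2
  rw [H.rank_eq] at h1
  set G : ℕ := Nat.card Γ with hG
  have hGpos : 0 < G := Nat.card_pos
  set m : ℕ := Nat.card {g // g ∉ S j s₀ f T M} with hm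
  set C' : ℕ := 2 * (n + 1).factorial * n ^ (2 * (n + 1)) with hC
  have h6 : h₂ n = C' + 1 := rfl
  have h7 : G * G ^ (n + 1) ≤ (C' * m) * G ^ (n + 1) := by
    calc G * G ^ (n + 1) ≤ G * ((n ^ 2) ^ (n + 1) *
          Nat.card {x : Fin (n + 1) → Γ // ¬ Good (S j s₀ f T M) (n + 1) x}) :=
          Nat.mul_le_mul_left _ (h1.trans (Nat.mul_le_mul_left _ h2))
      _ = (n ^ 2) ^ (n + 1) *
          (Nat.card {x : Fin (n + 1) → Γ // ¬ Good (S j s₀ f T M) (n + 1) x} * G) := by ring
      _ ≤ (n ^ 2) ^ (n + 1) * (2 * (n + 1).factorial * m * G ^ (n + 1)) := by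
          refine Nat.mul_le_mul_left _ (h3.trans ?_)
          exact Nat.mul_le_mul_right _ (Nat.mul_le_mul_right _ h4)
      _ = (C' * m) * G ^ (n + 1) := by
          rw [hC, ← pow_mul]
          ring
  have h8 : G ≤ C' * m := Nat.le_of_mul_le_mul_right h7 (pow_pos hGpos _)
  rw [h6] at h5
  have h9 : (C' + 1) * m = C' * m + m := by ring
  have h10 : m = 0 := by omega
  rw [h10, mul_zero] at h8
  omega

end Pool.Agent.PsL74
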