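import Pool.Agent.W_7742h_h74.HLDef
import Pool.Agent.W_7742l_h74.LSet

/-! # Existence of the extension `b` (compare `W_7742l_h74/LSet.lean`) -/

set_option autoImplicit false

noncomputable section

namespace Pool.Agent.PsL74

open NumberField Height Pool.Agent.OneI74 Pool.Agent.PsH74
open Pool.Agent.OneJ74 (h₁ h₂ exists_ext)
open Pool.Agent.OneL74 (HB qe S mat Cst coe_det factorial_bound)

variable {K O A Γ : Type} [Field K] [NumberField K] [CommRing O] [CommRing A] [Group Γ]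
  [Fintype Γ] {n : ℕ} {T E : ℕ} {M : ℝ} {s₀ : K →+* ℂ} {j : O →+* K}
  {ι : O →+* A} {t : Γ → A} {f : Γ → O}

theorem Set5.minor_zero (H : Set5 T E M s₀ j ι n t f) (k x : Fin (n ^ 2 + 1) → Γ)
    (hkx : ∀ i l, k i * x l ∈ S j s₀ f T M) : (mat j f k x).det = 0 := by
  have h3 : ι (Matrix.of fun i l => f (k i * x l)).det = 0 := by
    rw [RingHom.map_det]
    have h4 : ι.mapMatrix (Matrix.of fun i l => f (k i * x l)) =
        Matrix.of fun i l => t (k i * x l) := by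
      ext i l
      rw [RingHom.mapMatrix_apply, Matrix.map_apply, Matrix.of_apply, Matrix.of_apply,
        H.hf _ (hkx i l)]
    rw [h4]
    exact H.pt.gram _ _
  have h6 := HB.det (factorial_bound H.cst.hT) (fun _ _ => 1) (mat j f k x)
    (fun i l => (hkx i l).1)
  rw [← coe_det] at h6
  have h5 := H.eq_zero (e := 2 * (n ^ 2 + 1) +
    ∑ _i : Fin (n ^ 2 + 1), ∑ _j : Fin (n ^ 2 + 1), 1) (by
    simp only [Finset.sum_const, Finset.card_univ, Fintype.card_fin, smul_eq_mul, mul_one]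
    have := H.cst.i1
    nlinarith) h3 h6
  rw [← coe_det, h5, map_zero]

theorem Set5.exists_bdat (H : Set5 T E M s₀ j ι n t f) :
    ∃ (ρ : ℕ) (k x : Fin ρ → Γ) (b : Γ → K), BDat5 T E M s₀ j ι n t f ρ k x b := by
  classical
  let P : ℕ → Prop := fun ρ => ∃ k x : Fin ρ → Γ, (∀ i l, k i * x l ∈ S j s₀ f T M) ∧
    (mat j f k x).det ≠ 0
  have hP0 : P 0 := ⟨fun _ => 1, fun _ => 1, fun i => i.elim0, by
    rw [Matrix.det_isEmpty]
    exact one_ne_zero⟩
  have hspec : P (Nat.findGreatest P (n ^ 2)) := Nat.findGreatest_spec (Nat.zero_le _) hP0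
  have hle : Nat.findGreatest P (n ^ 2) ≤ n ^ 2 := Nat.findGreatest_le _
  have hgr : ∀ m, Nat.findGreatest P (n ^ 2) < m → m ≤ n ^ 2 → ¬ P m := fun m h1 h2 =>
    Nat.findGreatest_is_greatest h1 h2
  generalize Nat.findGreatest P (n ^ 2) = ρ at hspec hle hgr
  obtain ⟨k, x, hkx, hdet⟩ := hspec
  have hmin : ∀ k' x' : Fin (ρ + 1) → Γ, (∀ i l, k' i * x' l ∈ S j s₀ f T M) →
      (Matrix.of fun i l => j (f (k' i * x' l))).det = 0 := by
    intro k' x' hk
    rcases Nat.lt_or_ge ρ (n ^ 2) with h | h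
    · by_contra hne
      exact hgr (ρ + 1) (Nat.lt_succ_self ρ) h ⟨k', x', hk, hne⟩
    · obtain rfl : ρ = n ^ 2 := le_antisymm hle h
      exact H.minor_zero k' x' hk
  have hS : 2 * ρ * (ρ + 1) * Nat.card {g // g ∉ S j s₀ f T M} < Nat.card Γ := by
    have h1 := H.card1
    have h2 : 2 * ρ * (ρ + 1) < h₁ n := by
      unfold h₁
      have : 2 * ρ * (ρ + 1) ≤ 2 * n ^ 2 * (n ^ 2 + 1) :=
        Nat.mul_le_mul (Nat.mul_le_mul_left 2 hle) (Nat.succ_le_succ hle)
      omega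
    rcases Nat.eq_zero_or_pos (Nat.card {g // g ∉ S j s₀ f T M}) with h0 | h0
    · rw [h0, mul_zero]
      exact Nat.card_pos
    · exact (Nat.mul_lt_mul_of_pos_right h2 h0).trans_le h1
  obtain ⟨b, hb, hfac⟩ :=
    exists_ext (S j s₀ f T M) (fun g => j (f g)) k x hkx hdet hmin hS
  exact ⟨ρ, k, x, b, H, hle, hkx, hdet, hb, hfac⟩

end Pool.Agent.PsL74
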