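import Pool.Agent.W_7742z_h74.PsA
import Pool.Agent.W_7742z_h74.PsB
import Pool.Agent.W_7742z_h74.Gram

/-! # Pseudo-characters -/

set_option autoImplicit false

noncomputable section

namespace Pool.Agent.PsH74

open Pool.Agent.OneI74

/-- `t` is an `n`-dimensional pseudo-character: a class function with `t 1 = n` which satisfies the
fundamental identity of degree `n + 1` and the identity of the Gram determinants of size `n ^ 2 + 1` for
the traces of `n × n` matrices. -/
structure PT {Γ A : Type} [Group Γ] [CommRing A] (n : ℕ) (t : Γ → A) : Prop where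
  one : t 1 = n
  comm : ∀ x y, t (x * y) = t (y * x)
  pol : ∀ y : Fin (n + 1) → Γ, pol t (n + 1) y = 0
  gram : ∀ k x : Fin (n ^ 2 + 1) → Γ, (Matrix.of fun i j => t (k i * x j)).det = 0

/-- The trace of a representation is a pseudo-character. -/
theorem PT.of_rep {Γ A : Type} [Group Γ] [CommRing A] {n : ℕ}
    (r : Γ →* Matrix (Fin n) (Fin n) A) : PT n fun g => (r g).trace where
  one := by rw [map_one, Matrix.trace_one, Fintype.card_fin]
  comm x y := by rw [map_mul, map_mul, Matrix.trace_mul_comm]
  pol y := by
    rw [pol_comp (fun g => r g) (fun x y => map_mul r x y)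
      (fun M : Matrix (Fin n) (Fin n) A => M.trace) (n + 1) y]
    exact pol_trace_succ _
  gram k x := by
    simp only [map_mul]
    exact det_gram (by omega) _ _

/-- Passing to a quotient. -/
theorem PT.lift {G A : Type} [Group G] [CommRing A] {n : ℕ} {t : G → A} (ht : PT n t)
    (U : Subgroup G) [U.Normal] (hU : ∀ g, ∀ u ∈ U, t (g * u) = t g) :
    ∃ T : G ⧸ U → A, PT n T ∧ ∀ g, T (QuotientGroup.mk g) = t g := by
  refine ⟨Quotient.lift t fun a b hab => ?_, ?_, fun g => rfl⟩
  · have h1 : a⁻¹ * b ∈ U := QuotientGroup.leftRel_apply.1 hab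
    have h2 := hU a _ h1
    rw [mul_inv_cancel_left] at h2
    exact h2.symm
  · obtain ⟨T, hT⟩ : ∃ T : G ⧸ U → A, T = Quotient.lift t fun a b hab => by
        have h1 : a⁻¹ * b ∈ U := QuotientGroup.leftRel_apply.1 hab
        have h2 := hU a _ h1
        rw [mul_inv_cancel_left] at h2
        exact h2.symm := ⟨_, rfl⟩
    have hTt : ∀ g, T (QuotientGroup.mk g) = t g := by
      intro g
      rw [hT]
      rfl
    rw [← hT]
    refine ⟨?_, ?_, ?_, ?_⟩
    · rw [← QuotientGroup.mk_one, hTt, ht.one]
    · intro x y
      obtain ⟨g, rfl⟩ := QuotientGroup.mk_surjective x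
      obtain ⟨h, rfl⟩ := QuotientGroup.mk_surjective y
      rw [← QuotientGroup.mk_mul, ← QuotientGroup.mk_mul, hTt, hTt, ht.comm]
    · intro y
      choose y' hy' using fun i => QuotientGroup.mk_surjective (y i)
      have h1 := pol_comp (fun g : G => (QuotientGroup.mk g : G ⧸ U)) (fun _ _ => rfl) T (n + 1) y'
      rw [show (fun a => (QuotientGroup.mk (y' a) : G ⧸ U)) = y from funext hy'] at h1
      rw [← h1]
      simp only [hTt]
      exact ht.pol y'
    · intro k x
      choose k' hk' using fun i => QuotientGroup.mk_surjective (k i)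
      choose x' hx' using fun i => QuotientGroup.mk_surjective (x i)
      have h1 : (Matrix.of fun i j => T (k i * x j)) = Matrix.of fun i j => t (k' i * x' j) := by
        ext i j
        rw [Matrix.of_apply, Matrix.of_apply, ← hTt, QuotientGroup.mk_mul, hk', hx']
      rw [h1]
      exact ht.gram k' x'

end Pool.Agent.PsH74
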