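import Pool.Agent.W_7742h_h74.HSta
import Pool.Agent.W_7742h_h74.HPsc
import Pool.Agent.W_7742h_h74.GGrm

/-! # Pseudo-characters: the two definitions; locally constant functions -/

set_option autoImplicit false

noncomputable section

namespace Pool.Agent.PsC74

open Pool.Agent.OneI74 Pool.Agent.PsH74

theorem polarized_eq {G A : Type} [Mul G] [CommRing A] (t : G → A) (k : ℕ) (x : Fin k → G) :
    polarized t k x = pol t k x := by
  induction k with
  | zero => rfl
  | succ k ih =>
    rw [pol_succ]
    show t (x 0) * polarized t k (Fin.tail x) -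
      ∑ i : Fin k, polarized t k (Function.update (Fin.tail x) i (x i.succ * x 0)) = _
    rw [ih]
    simp only [ih]

theorem IsPseudocharacter.pt {G A : Type} [Group G] [CommRing A] {n : ℕ} {t : G → A}
    (h : IsPseudocharacter n t) : PT n t := by
  have h1 : ∀ y, pol t (n + 1) y = 0 := fun y => by
    rw [← polarized_eq]
    exact h.polarized y
  exact ⟨h.one, h.comm, h1, fun k x => Pool.Agent.CycH74.gram_zero t h.comm h1 k x⟩

theorem isPseudocharacter_of_pt {G A : Type} [Group G] [CommRing A] {n : ℕ} {t : G → A}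
    (h : PT n t) : IsPseudocharacter n t :=
  ⟨h.one, h.comm, fun y => by rw [polarized_eq]; exact h.pol y⟩

/-- A locally constant function on a profinite group is invariant under an open normal subgroup. -/
theorem exists_open {G A : Type} [Group G] [TopologicalSpace G] [IsTopologicalGroup G]
    [CompactSpace G] [TotallyDisconnectedSpace G] {t : G → A} (ht : IsLocallyConstant t) :
    ∃ U : Subgroup G, U.Normal ∧ IsOpen (U : Set G) ∧ ∀ g, ∀ u ∈ U, t (g * u) = t g := by
  classical
  have h1 : ∀ g : G, ∃ H : OpenNormalSubgroup G, ∀ x ∈ H, t (g * x) = t g := by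
    intro g
    have h2 : IsOpen {x : G | t (g * x) = t g} := by
      have h3 : IsOpen (t ⁻¹' {t g}) := ht.isOpen_fiber (t g)
      exact h3.preimage (continuous_const_mul g)
    obtain ⟨H, hH⟩ := ProfiniteGrp.exist_openNormalSubgroup_sub_open_nhds_of_one h2 (by
      show t (g * 1) = t g
      rw [mul_one])
    exact ⟨H, fun x hx => hH hx⟩
  choose H hH using h1
  have hopen : ∀ g : G, IsOpen {y : G | g⁻¹ * y ∈ H g} := fun g =>
    (H g).isOpen'.preimage (continuous_const_mul g⁻¹)
  obtain ⟨s, hs⟩ := isCompact_univ.elim_finite_subcover (fun g : G => {y : G | g⁻¹ * y ∈ H g})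
    hopen (fun y _ => Set.mem_iUnion.2 ⟨y, by
      show y⁻¹ * y ∈ H y
      rw [inv_mul_cancel]
      exact one_mem _⟩)
  refine ⟨⨅ g : s, (H g.1).toSubgroup, ?_, ?_, ?_⟩
  · exact Subgroup.normal_iInf_normal fun g => (H g.1).isNormal'
  · rw [Subgroup.coe_iInf]
    exact isOpen_iInter_of_finite fun g => (H g.1).isOpen'
  · intro x u hu
    obtain ⟨g, hg⟩ := Set.mem_iUnion.1 (hs (Set.mem_univ x))
    obtain ⟨hgs, hx⟩ := Set.mem_iUnion.1 hg
    have hx' : g⁻¹ * x ∈ H g := hx
    have hu' : u ∈ H g := (Subgroup.mem_iInf.1 hu) ⟨g, hgs⟩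
    have h2 := hH g _ hx'
    have h3 := hH g _ (mul_mem hx' hu')
    rw [mul_inv_cancel_left] at h2
    rw [← mul_assoc, mul_inv_cancel_left] at h3
    rw [h2, h3]

theorem exists_open_GQ {A : Type} {t : GQ → A} (ht : IsLocallyConstant t) :
    ∃ U : Subgroup GQ, U.Normal ∧ IsOpen (U : Set GQ) ∧ ∀ g, ∀ u ∈ U, t (g * u) = t g := by
  have : TotallySeparatedSpace GQ := ⟨krullTopology_isTotallySeparated⟩
  exact exists_open ht

/-- The trace of a representation with open kernel is a locally constant pseudo-character. -/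
theorem locConst_of_rep {A : Type} [CommRing A] {n : ℕ} (r : GQ →* Matrix.GeneralLinearGroup (Fin n) A)
    (hr : IsOpen (r.ker : Set GQ)) :
    IsLocallyConstant (fun g => (r g).val.trace) ∧
      IsPseudocharacter n (fun g => (r g).val.trace) := by
  refine ⟨?_, isPseudocharacter_of_pt (PT.of_rep ((Units.coeHom _).comp r))⟩
  refine (IsLocallyConstant.iff_exists_open _).2 fun x => ?_
  refine ⟨{y | x⁻¹ * y ∈ r.ker}, hr.preimage (continuous_const_mul x⁻¹), ?_, ?_⟩
  · show x⁻¹ * x ∈ r.ker
    rw [inv_mul_cancel]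
    exact one_mem _
  · intro y hy
    have h1 : r (x⁻¹ * y) = 1 := hy
    rw [map_mul, map_inv, inv_mul_eq_one] at h1
    rw [h1]

end Pool.Agent.PsC74
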