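import Pool.Agent.W_7742h_h74.HTfa
import Pool.Agent.W_7742h_h74.HJMai
import Pool.Agent.W_7742l_h74.LOne

/-! # One pseudo-character modulo one ideal of large norm; the equivalence
(compare `W_7742l_h74/LOne.lean`) -/

set_option autoImplicit false

noncomputable section

open Filter Topology

namespace Pool.Agent.PsC74

open NumberField Polynomial Height
open Pool.Agent.OneM74 Pool.Agent.GalSide Pool.Agent.OneP74 Pool.Agent.OneI74 Pool.Agent.OneN74
open Pool.Agent.GL74 Pool.Agent.GLForm74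
open Pool.Agent.Crit74 (dens_mono dens_union dens_level map_trace' cusp_logBound exists_Q
  mean_of_dens mean_mono GLmap_val GLmap_ker YY_ineq mean_of_rep)
open Pool.Agent.Cheb
open Pool.Agent.OneJ74 (YY)

variable {n N : ℕ}

/-- The bound. -/
theorem small_lt (hn : 0 < n) {d X Y : ℕ} (hd : d ≠ 0) (h1 : (2 * n) ^ (3 * (n ^ 2 + 1) * d) ≤ X)
    (h2 : X ≤ (n ^ (2 * n ^ 2)) ^ d * Y) :
    ((2 * (n : ℝ)) ^ n ^ 2 + n) ^ d < (Y : ℝ) := by
  have hn1 : (1 : ℝ) ≤ n := by exact_mod_cast hn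
  have h3 : (((2 * (n : ℝ)) ^ (3 * (n ^ 2 + 1))) ^ d) ≤ ((n : ℝ) ^ (2 * n ^ 2)) ^ d * (Y : ℝ) := by
    rw [← pow_mul]
    exact_mod_cast h1.trans h2
  have h4 : (n : ℝ) ^ (2 * n ^ 2) * ((2 * (n : ℝ)) ^ n ^ 2 + n) < (2 * (n : ℝ)) ^ (3 * (n ^ 2 + 1)) := by
    have e1 : (n : ℝ) ≤ (2 * (n : ℝ)) ^ n ^ 2 := by
      calc (n : ℝ) ≤ 2 * n := by linarith
        _ = (2 * n) ^ 1 := (pow_one _).symm
        _ ≤ (2 * n) ^ n ^ 2 := pow_le_pow_right₀ (by linarith) (Nat.one_le_pow _ _ hn)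
    have e2 : (n : ℝ) ^ (2 * n ^ 2) ≤ (2 * (n : ℝ)) ^ (2 * n ^ 2) :=
      pow_le_pow_left₀ (by linarith) (by linarith) _
    have e3 : (0 : ℝ) < (2 * (n : ℝ)) ^ n ^ 2 := by positivity
    have e4 : (0 : ℝ) < (2 * (n : ℝ)) ^ (2 * n ^ 2) := by positivity
    calc (n : ℝ) ^ (2 * n ^ 2) * ((2 * (n : ℝ)) ^ n ^ 2 + n)
        ≤ (2 * (n : ℝ)) ^ (2 * n ^ 2) * (2 * (2 * (n : ℝ)) ^ n ^ 2) :=
          mul_le_mul e2 (by linarith) (by positivity) e4.le
      _ < (2 * (n : ℝ)) ^ (2 * n ^ 2) * ((2 * (n : ℝ)) ^ 3 * (2 * (n : ℝ)) ^ n ^ 2) := by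
          refine mul_lt_mul_of_pos_left ?_ e4
          refine mul_lt_mul_of_pos_right ?_ e3
          have : (2 : ℝ) ≤ 2 * n := by linarith
          nlinarith [pow_le_pow_left₀ (by norm_num : (0 : ℝ) ≤ 2) this 3]
      _ = (2 * (n : ℝ)) ^ (3 * (n ^ 2 + 1)) := by
          rw [← pow_add, ← pow_add]
          congr 1
          ring
  have h5 : ((n : ℝ) ^ (2 * n ^ 2)) ^ d * ((2 * (n : ℝ)) ^ n ^ 2 + n) ^ d <
      ((n : ℝ) ^ (2 * n ^ 2)) ^ d * (Y : ℝ) := by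
    rw [← mul_pow]
    exact (pow_lt_pow_left₀ h4 (by positivity) hd).trans_le h3
  exact lt_of_mul_lt_mul_left h5 (by positivity)

theorem motive_of_one (hn : 0 < n) {F : Nat.Primes → GQ} (hF : IsFrobeniusChoice F)
    {U : Nat.Primes → Set GQ} {V : Set GQ} {z : GQ → ℂ} (h : AttachedOne n F U V z) :
    HasMotive n F U V z := by
  classical
  obtain ⟨K, iK, iN, s, b, A, iA, ι, t, hι, hl, hp, hb, hm, hV⟩ := h
  have hd0 : Module.finrank ℚ K ≠ 0 := (Module.finrank_pos (R := ℚ) (M := K)).ne'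
  have hY : YY n ^ Module.finrank ℚ K ≤ Ideal.absNorm (RingHom.ker ι) := by
    refine le_trans (le_of_eq ?_) hι
    unfold Pool.Agent.OneJ74.YY
    rw [← pow_mul]
  have hF' : Pool.Agent.OneP74.IsFrobeniusFamily F := hF
  choose 𝔓 h𝔓 hp𝔓 hFr using hF'
  obtain ⟨Φ, hΦ⟩ : ∃ Φ : FrobeniusData GQ, Φ.frob = F := ⟨frobeniusData 𝔓 h𝔓 hp𝔓 F hFr, rfl⟩
  obtain ⟨W, hW, hWo, htW⟩ := exists_open_GQ hl
  obtain ⟨𝔟, β, hN, hc, hd, hR⟩ := Pool.Agent.PsJ74.main_p Φ b hm ι hn hY hp.pt W hWo htW (by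
    rw [hΦ]
    exact dens_mono hb fun p hp hx => hp hx.2.1)
  obtain ⟨R, hRt, hRi⟩ := hR s
  have hfin : Finite (GQ ⧸ W) := Subgroup.quotient_finite_of_isOpen W hWo
  let R' : GQ →* GL (Fin n) ℂ := (R.comp (QuotientGroup.mk' W)).toHomUnits
  have hR' : ∀ g, (R' g).val = R (QuotientGroup.mk g) := fun g => rfl
  have key : ∀ g, IsSmallLiftOf n s ι (z g) (t g) → (R' g).val.trace = z g := by
    intro g hg
    obtain ⟨c, c1, c2, c3⟩ := hg
    have e1 := hc g c c3.symm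
    have e2 : c - β (QuotientGroup.mk g) = 0 := by
      refine eq_zero_of_small 𝔟 e1 (X := (2 * (n : ℝ)) ^ n ^ 2 + n) (fun σ => ?_) ?_
      · have e3 : ((c - β (QuotientGroup.mk g) : 𝓞 K) : K) =
            (c : K) - (β (QuotientGroup.mk g) : K) := by push_cast; ring
        rw [e3, map_sub]
        refine (norm_sub_le _ _).trans (add_le_add (c2 σ) ?_)
        obtain ⟨Rσ, hRσ, -⟩ := hR σ
        rw [← hRσ]
        refine norm_trace_le (m := Nat.card (GQ ⧸ W)) Nat.card_pos _ ?_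
        rw [← map_pow, pow_card_eq_one', map_one]
      · exact small_lt hn hd0 hι hN
    rw [hR', hRt, ← sub_eq_zero.1 e2, c1]
  refine motive_of_C hn ⟨R', fun W' hW' => ?_, ?_, ?_, fun g hg => key g (hV g hg)⟩
  · refine hRi W' fun g w hw => ?_
    obtain ⟨g, rfl⟩ := QuotientGroup.mk_surjective g
    exact hW' g w hw
  · refine Subgroup.isOpen_mono (H₁ := W) (fun g hg => MonoidHom.mem_ker.2 (Units.ext ?_)) hWo
    rw [hR', (QuotientGroup.eq_one_iff g).2 hg, map_one]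
    rfl
  · refine dens_union hd hb ?_
    intro p hp
    by_contra hcon
    rw [Set.mem_union, not_or] at hcon
    have e1 : b p = β (QuotientGroup.mk (F p)) := by
      rw [← hΦ]
      exact not_not.1 hcon.1
    have e2 := not_not.1 hcon.2
    refine hp ⟨?_, fun g hg => key g (e2.2.2 g hg)⟩
    rw [hR', hRt, ← e1, e2.1]

/-- The mean of a sum. -/
theorem mean_sum {ι : Type} [Fintype ι] {a : ι → Nat.Primes → ℝ}
    (h : ∀ i, MeanLE 1 (a i)) : MeanLE (Fintype.card ι) (fun p => ∑ i, a i p) := by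
  intro ε hε
  have hc : (0 : ℝ) < Fintype.card ι + 1 := by positivity
  have h1 : ∀ᶠ s : ℝ in 𝓝[>] 1, ∀ i,
      Summable (fun p : Nat.Primes => a i p * ((p : ℕ) : ℝ) ^ (-s)) ∧
      ∑' p : Nat.Primes, a i p * ((p : ℕ) : ℝ) ^ (-s) ≤
        (1 + ε / (Fintype.card ι + 1)) * Real.log (1 / (s - 1)) :=
    eventually_all.2 fun i => h i _ (div_pos hε hc)
  have hlog : ∀ᶠ s : ℝ in 𝓝[>] 1, 0 < Real.log (1 / (s - 1)) := Chb_log.eventually_gt_atTop 0
  filter_upwards [h1, hlog] with s h2 hL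
  have h3 := hasSum_sum (s := Finset.univ) fun (i : ι) _ => (h2 i).1.hasSum
  have e1 : (fun p : Nat.Primes => (∑ i, a i p) * ((p : ℕ) : ℝ) ^ (-s)) =
      fun p : Nat.Primes => ∑ i, a i p * ((p : ℕ) : ℝ) ^ (-s) :=
    funext fun p => Finset.sum_mul _ _ _
  rw [e1]
  refine ⟨h3.summable, ?_⟩
  rw [h3.tsum_eq]
  refine (Finset.sum_le_sum fun i _ => (h2 i).2).trans ?_
  rw [Finset.sum_const, Finset.card_univ, nsmul_eq_mul, ← mul_assoc]
  refine mul_le_mul_of_nonneg_right ?_ hL.le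
  have h4 : (Fintype.card ι : ℝ) * (ε / (Fintype.card ι + 1)) ≤ ε := by
    rw [mul_div_assoc', div_le_iff₀ hc]
    nlinarith
  linarith

theorem one_of_motive (hn : 0 < n) {F : Nat.Primes → GQ} (hF : IsFrobeniusChoice F)
    {U : Nat.Primes → Set GQ} {V : Set GQ} {z : GQ → ℂ} (h : HasMotive n F U V z) :
    AttachedOne n F U V z := by
  classical
  obtain ⟨E, iE, iN, i, R, hirr, ho, hd, hV⟩ := h
  obtain ⟨q, T, hq, -, hqn⟩ := exists_traces hn R ho
  obtain ⟨m, hm⟩ : ∃ m : ℕ, m = (2 * n) ^ (3 * (n ^ 2 + 1)) := ⟨_, rfl⟩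
  have hm0 : m ≠ 0 := by
    rw [hm]
    exact (pow_pos (by omega) _).ne'
  obtain ⟨A, iA, ι, r, hk, hker, htr, -⟩ := exists_mod_ch (RingHom.id E) R ho
    (Ideal.span {(m : 𝓞 E)}) (by
      rw [Ne, Ideal.span_singleton_eq_bot, Nat.cast_eq_zero]
      exact hm0)
  obtain ⟨l1, l2⟩ := locConst_of_rep r (Subgroup.isOpen_mono hker ho)
  have hn1 : (n : ℝ) ≤ (2 * n) ^ n ^ 2 := by
    have e1 : (1 : ℝ) ≤ 2 * n := by
      have : (1 : ℝ) ≤ n := by exact_mod_cast hn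
      linarith
    calc (n : ℝ) ≤ 2 * n := by linarith [Nat.cast_nonneg (α := ℝ) n]
      _ = (2 * n) ^ 1 := (pow_one _).symm
      _ ≤ (2 * n) ^ n ^ 2 := pow_le_pow_right₀ e1 (Nat.one_le_pow _ _ hn)
  have key : ∀ g, i (R g).val.trace = z g → IsSmallLiftOf n i ι (z g) (r g).val.trace := by
    intro g hg
    refine ⟨q g, ?_, fun σ => (hqn σ g).trans hn1, htr _ _ (hq g).symm⟩
    rw [hq, hg]
  refine ⟨E, iE, iN, i, fun p => q (F p), A, iA, ι, fun g => (r g).val.trace, ?_, l1, l2, ?_, ?_,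
    fun g hg => key g (hV g hg)⟩
  · rw [hk, Ideal.absNorm_span_natCast, RingOfIntegers.rank, hm, ← pow_mul]
  · refine dens_mono hd fun p hp hx => hp ⟨?_, ?_, fun g hg => key g (hx.2 g hg)⟩
    · show i (q (F p) : E) = _
      rw [hq]
      exact hx.1
    · exact htr _ _ (hq (F p)).symm
  · rw [← NumberField.Embeddings.card E ℂ]
    refine mean_sum fun σ => ?_
    refine mean_of_rep hn hF ((Matrix.GeneralLinearGroup.map σ).comp R) ?_ ?_ _ fun p => ?_
    · rw [GLmap_ker σ σ.injective]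
      exact ho
    · intro W hW
      exact hirr σ W hW
    · rw [hq, GLmap_val, map_trace']

/-- The equivalence. -/
theorem tfae_p (hn : 2 ≤ n) (hN : 0 < N) {P : ℕ → ℂ[X]}
    (hc : IsCuspidalSystem N P n) {F : Nat.Primes → GQ} (hF : IsFrobeniusChoice F)
    {U : Nat.Primes → Set GQ} {V : Set GQ} {z : GQ → ℂ}
    (hP : ∀ p : Nat.Primes, ¬ (p : ℕ) ∣ N → z (F p) = -(P p).coeff (n - 1)) :
    [HasMotive n F U V z,
      ∀ W ⊆ V, W.Subsingleton → AttachedNear n F U W z,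
      AttachedOne n F U V z].TFAE := by
  tfae_have 1 → 2 := fun h W hW _ => near_of_motive (by omega) hW h
  tfae_have 2 → 1 := by
    intro h
    refine motive_of_C (by omega) (combineC hF ?_ fun g hg => ?_)
    · exact C_of_near hn hN hc hF hP (h ∅ (Set.empty_subset V) Set.subsingleton_empty)
    · exact C_of_near hn hN hc hF hP
        (h {g} (Set.singleton_subset_iff.2 hg) Set.subsingleton_singleton)
  tfae_have 1 → 3 := one_of_motive (by omega) hF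
  tfae_have 3 → 1 := motive_of_one (by omega) hF
  tfae_finish

/-- The mean, for conjugate cusp forms. -/
theorem mean_all {K : Type} [Field K] [NumberField K] (hn : 2 ≤ n) (hN : 0 < N)
    (Q : ℕ → (𝓞 K)[X])
    (hQ : ∀ p : ℕ, p.Prime → ¬ p ∣ N → (Q p).Monic ∧ (Q p).natDegree = n)
    (hs : ∀ s : K →+* ℂ,
      IsCuspidalSystem N (fun p => (Q p).map (s.comp (algebraMap (𝓞 K) K))) n ∨
      IsCuspidalSystem N (fun p => (Q p).map
        ((starRingEnd ℂ).comp (s.comp (algebraMap (𝓞 K) K)))) n) :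
    MeanLE (Module.finrank ℚ K) (fun p => ∑ σ : K →+* ℂ, ‖σ ((Q p).coeff (n - 1) : K)‖ ^ 2) := by
  rw [← NumberField.Embeddings.card K ℂ]
  exact mean_sum fun σ => (Pool.Agent.Crit74.mean_of_all hn hN Q hQ hs).1 σ

end Pool.Agent.PsC74
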