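import Pool.Agent.W_7742h_h74.HCpx
import Pool.Agent.W_7742l_h74.LTfa

/-! # From a motive to representations modulo all ideals (compare `W_7742l_h74/LTfa.lean`) -/

set_option autoImplicit false

noncomputable section

open Filter Topology

namespace Pool.Agent.PsC74

open NumberField Polynomial Height
open Pool.Agent.OneM74 Pool.Agent.GalSide Pool.Agent.OneP74 Pool.Agent.OneI74 Pool.Agent.OneN74
open Pool.Agent.GL74 Pool.Agent.GLForm74
open Pool.Agent.Crit74 (dens_mono dens_union dens_level map_trace' cusp_logBound exists_Q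
  mean_of_dens mean_mono GLmap_val GLmap_ker YY_ineq)
open Pool.Agent.Cheb
open Pool.Agent.CritH74 (exists_height_bound absNorm_le_height mean_of_upLE)

variable {n N : ℕ}

/-- The traces of a representation with open kernel over a number field are algebraic integers of bounded
height. -/
theorem exists_traces {E : Type} [Field E] [NumberField E] (hn : 0 < n) (R : GQ →* GL (Fin n) E)
    (ho : IsOpen (R.ker : Set GQ)) :
    ∃ (q : GQ → 𝓞 E) (T : ℕ), (∀ g, (q g : E) = (R g).val.trace) ∧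
      (∀ g, HeightLE T (q g : E)) ∧ ∀ (σ : E →+* ℂ) (g : GQ), ‖σ (q g : E)‖ ≤ n := by
  classical
  have hne : Nonempty (Fin n) := ⟨⟨0, hn⟩⟩
  have hfin : Finite (GQ ⧸ R.ker) := Subgroup.quotient_finite_of_isOpen R.ker ho
  have hRm : ∀ g, (R g).val ^ Nat.card (GQ ⧸ R.ker) = 1 := by
    intro g
    have h1 : g ^ Nat.card (GQ ⧸ R.ker) ∈ R.ker := by
      rw [← QuotientGroup.eq_one_iff, QuotientGroup.mk_pow, pow_card_eq_one']
    rw [← Units.val_pow_eq_pow_val, ← map_pow, MonoidHom.mem_ker.1 h1]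
    rfl
  choose Q hQ using fun g : GQ => exists_Q Nat.card_pos (R g).val (hRm _)
  have htrQ : ∀ g, ((-(Q g).coeff (n - 1) : 𝓞 E) : E) = (R g).val.trace := by
    intro g
    have h2 := congrArg (fun f => Polynomial.coeff f (n - 1)) (hQ g)
    simp only [Polynomial.coeff_map] at h2
    rw [Matrix.trace_eq_neg_charpoly_coeff, Fintype.card_fin, ← h2]
    rfl
  have hrange : (Set.range fun g : GQ => (R g).val.charpoly).Finite := by
    have h1 : (Set.range fun x : GQ ⧸ R.ker => (QuotientGroup.kerLift R x).val.charpoly).Finite :=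
      Set.finite_range _
    refine h1.subset ?_
    rintro _ ⟨g, rfl⟩
    exact ⟨QuotientGroup.mk g, rfl⟩
  obtain ⟨T, hT1, hT⟩ := exists_height_bound hrange
  refine ⟨fun g => -(Q g).coeff (n - 1), T, htrQ, fun g => ?_, fun σ g => ?_⟩
  · have h1 := hT _ ⟨g, rfl⟩ (n - 1)
    dsimp only at h1
    rw [← hQ g, Polynomial.coeff_map] at h1
    have h2 : mulHeight₁ ((-(Q g).coeff (n - 1) : 𝓞 E) : E) =
        mulHeight₁ (((Q g).coeff (n - 1) : 𝓞 E) : E) :=
      (congrArg mulHeight₁ (map_neg (algebraMap (𝓞 E) E) ((Q g).coeff (n - 1)))).trans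
        (mulHeight₁_neg _)
    show mulHeight₁ ((-(Q g).coeff (n - 1) : 𝓞 E) : E) ≤ _
    rw [h2]
    exact h1
  · rw [htrQ, ← map_trace' σ]
    refine norm_trace_le (m := Nat.card (GQ ⧸ R.ker)) Nat.card_pos _ ?_
    rw [← RingHom.mapMatrix_apply, ← map_pow, hRm, map_one]

/-- A motive gives nearly attached pseudo-characters. -/
theorem near_of_motive {F : Nat.Primes → GQ} {U : Nat.Primes → Set GQ} {V V' : Set GQ}
    {z : GQ → ℂ} (hn : 0 < n) (hV' : V' ⊆ V) (h : HasMotive n F U V z) :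
    AttachedNear n F U V' z := by
  classical
  obtain ⟨K, iK, iN, s, R, hirr, ho, hd, hV⟩ := h
  obtain ⟨q, T₀, hq, hT₀, -⟩ := exists_traces hn R ho
  intro ε hε
  obtain ⟨T, hTdef⟩ : ∃ T : ℕ, T = T₀ + 2 * n := ⟨_, rfl⟩
  have hTT : (T₀ : ℝ) ≤ T := by exact_mod_cast (by omega : T₀ ≤ T)
  have hT : ∀ g, HeightLE (T : ℝ) (q g : K) := fun g =>
    (hT₀ g).trans (pow_le_pow_left₀ (Nat.cast_nonneg _) hTT _)
  obtain ⟨m, hm⟩ : ∃ m : ℕ, m = T ^ (7 * (n + 1).factorial) := ⟨_, rfl⟩
  have hm0 : m ≠ 0 := by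
    rw [hm]
    exact (pow_pos (by omega) _).ne'
  obtain ⟨A, iA, ι, r, hk, hker, htr, -⟩ := exists_mod_ch (RingHom.id K) R ho
    (Ideal.span {(m : 𝓞 K)}) (by
      rw [Ne, Ideal.span_singleton_eq_bot, Nat.cast_eq_zero]
      exact hm0)
  obtain ⟨l1, l2⟩ := locConst_of_rep r (Subgroup.isOpen_mono hker ho)
  have key : ∀ g, s (R g).val.trace = z g →
      IsLiftOf (algebraMap (𝓞 K) K) s T ι (z g) (r g).val.trace := by
    intro g hg
    refine ⟨q g, ?_, hT g, htr _ _ (hq g).symm⟩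
    show s (q g : K) = _
    rw [hq, hg]
  refine ⟨T, by omega, K, 𝓞 K, A, iK, iN, inferInstance, iA, s, algebraMap (𝓞 K) K, ι,
    fun g => (r g).val.trace, RingOfIntegers.coe_injective, ?_, l1, l2, ?_,
    fun g hg => key g (hV g (hV' hg))⟩
  · intro x hx0 hx
    have hx' : x ∈ Ideal.span {(m : 𝓞 K)} := by rw [← hk]; exact hx
    have h4 := absNorm_le_height _ hx' hx0
    rw [Ideal.absNorm_span_natCast, RingOfIntegers.rank] at h4
    unfold HeightGE
    refine le_trans (le_of_eq ?_) h4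
    rw [hm]
    push_cast
    rfl
  · refine mean_mono hε.le (mean_of_dens hd ?_)
    intro p hp hx
    exact hp ⟨key _ hx.1, fun g hg => key _ (hx.2 g hg)⟩

end Pool.Agent.PsC74
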